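import Pool.Agent.Helper90K9.CP.Main
import Pool.Agent.Helper62K9.NPc
import Pool.Agent.Results.MP_0430e4_lc.ConstantWeightCriterion

/-!
# Codes closed under coordinatewise operations: asymptotics
-/

set_option autoImplicit false

namespace Helper90K9.CP

open Finset Filter

/-- `R(δ) = limsup (1/n) log₂ A(n, ⌈δ n⌉)` -/
noncomputable def R (δ : ℝ) : ℝ :=
  limsup (fun n : ℕ => Real.logb 2 (A n ⌈δ * n⌉₊) / n) atTop

/-- the same for linear codes -/
noncomputable def RLin (δ : ℝ) : ℝ :=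
  limsup (fun n : ℕ => Real.logb 2 (ALin n ⌈δ * n⌉₊) / n) atTop

theorem A_anti {n d d' : ℕ} (h : d ≤ d') : A n d' ≤ A n d := by
  obtain ⟨C, h1, h2⟩ := exists_A n d'
  rw [← h2]
  exact le_A fun x hx y hy hxy => h.trans (h1 x hx y hy hxy)

theorem ALin_anti {n d d' : ℕ} (h : d ≤ d') : ALin n d' ≤ ALin n d := by
  obtain ⟨C, h0, h1, h2⟩ := exists_ALin n d'
  rw [← h2]
  exact le_ALin h0 fun x hx y hy hxy => h.trans (h1 x hx y hy hxy)

theorem ALin_le_two_pow (n d : ℕ) : ALin n d ≤ 2 ^ n := (ALin_le_A n d).trans (A_le_two_pow n d)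

open Pool.Agent.Results.MP_0430e4_lc.ConstantWeightCriterion (rate_mem bdd_le bdd_ge
  logb_nonneg_nat)

theorem limsup_nonneg {F : ℕ → ℕ} (hF : ∀ n, F n ≤ 2 ^ n) :
    0 ≤ limsup (fun n : ℕ => Real.logb 2 (F n) / n) atTop := by
  refine le_limsup_of_frequently_le ?_ (bdd_le (rate_mem hF))
  exact Frequently.of_forall fun n => (rate_mem hF n).1

theorem R_nonneg (δ : ℝ) : 0 ≤ R δ := limsup_nonneg fun n => A_le_two_pow n _

theorem RLin_nonneg (δ : ℝ) : 0 ≤ RLin δ := limsup_nonneg fun n => ALin_le_two_pow n _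

theorem RLin_le_R (δ : ℝ) : RLin δ ≤ R δ := by
  refine limsup_le_limsup ?_ ?_ ?_
  · filter_upwards with n
    have h1 : (1 : ℝ) ≤ ALin n ⌈δ * n⌉₊ := by exact_mod_cast one_le_ALin n _
    have h2 : (ALin n ⌈δ * n⌉₊ : ℝ) ≤ A n ⌈δ * n⌉₊ := by exact_mod_cast ALin_le_A n _
    exact div_le_div_of_nonneg_right (Real.logb_le_logb_of_le (by norm_num) (by linarith) h2)
      (Nat.cast_nonneg n)
  · exact (bdd_ge (rate_mem fun n => ALin_le_two_pow n ⌈δ * n⌉₊)).isCoboundedUnder_flip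
  · exact bdd_le (rate_mem fun n => A_le_two_pow n ⌈δ * n⌉₊)

/-- uniform bounds for shorter codes -/
theorem short_bound {F : ℕ → ℕ → ℕ} (hF : ∀ n d, F n d ≤ 2 ^ n) (hF1 : ∀ n d, 1 ≤ F n d)
    (hanti : ∀ n d d', d ≤ d' → F n d' ≤ F n d) {δ : ℝ} (hδ : 0 < δ) {η : ℝ} (hη : 0 < η) :
    ∃ K : ℝ, 0 ≤ K ∧ ∀ m n : ℕ, m ≤ n → Real.logb 2 (F m ⌈δ * n⌉₊) ≤
      (limsup (fun n : ℕ => Real.logb 2 (F n ⌈δ * n⌉₊) / n) atTop + η) * m + K := by
  set ρ := limsup (fun n : ℕ => Real.logb 2 (F n ⌈δ * n⌉₊) / n) atTop with hρ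
  have hρ0 : 0 ≤ ρ := limsup_nonneg fun n => hF n _
  have h1 : ∀ᶠ n : ℕ in atTop, Real.logb 2 (F n ⌈δ * n⌉₊) / n < ρ + η :=
    eventually_lt_of_limsup_lt (by rw [← hρ]; linarith)
      (bdd_le (rate_mem fun n => hF n _))
  obtain ⟨m₀, hm₀⟩ := eventually_atTop.1 h1
  refine ⟨m₀ + 1, by positivity, ?_⟩
  intro m n hmn
  have hpos : (1 : ℝ) ≤ F m ⌈δ * n⌉₊ := by exact_mod_cast hF1 m _
  rcases Nat.lt_or_ge m (m₀ + 1) with h | h
  · have h2 : (F m ⌈δ * n⌉₊ : ℝ) ≤ 2 ^ m := by exact_mod_cast hF m _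
    have h3 : Real.logb 2 (F m ⌈δ * n⌉₊) ≤ m := by
      calc Real.logb 2 (F m ⌈δ * n⌉₊) ≤ Real.logb 2 (2 ^ m) :=
            Real.logb_le_logb_of_le (by norm_num) (by linarith) h2
        _ = m := by rw [Real.logb_pow]; simp
    have h4 : (m : ℝ) ≤ m₀ + 1 := by exact_mod_cast h.le
    have h5 : 0 ≤ (ρ + η) * m := by positivity
    linarith
  · have hm : (0 : ℝ) < m := by exact_mod_cast (by omega : 0 < m)
    have h2 := hm₀ m (by omega)
    have h3 : (F m ⌈δ * n⌉₊ : ℝ) ≤ F m ⌈δ * m⌉₊ := by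
      have : ⌈δ * m⌉₊ ≤ ⌈δ * n⌉₊ := Nat.ceil_le_ceil (by
        have : (m : ℝ) ≤ n := by exact_mod_cast hmn
        exact mul_le_mul_of_nonneg_left this hδ.le)
      exact_mod_cast hanti m _ _ this
    have h4 : Real.logb 2 (F m ⌈δ * n⌉₊) ≤ Real.logb 2 (F m ⌈δ * m⌉₊) :=
      Real.logb_le_logb_of_le (by norm_num) (by linarith) h3
    rw [div_lt_iff₀ hm] at h2
    have h5 : (0 : ℝ) ≤ m₀ + 1 := by positivity
    linarith

section

variable {k : ℕ} {n : ℕ}

/-- the coordinates where `f` depends on at most one variable -/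
noncomputable def E (f : Fin n → (Fin k → Bool) → Bool) : Finset (Fin n) :=
  univ.filter fun i => AtMostOne (f i)

/-- the coordinates where `f` is affine and depends on at least two variables -/
noncomputable def P (f : Fin n → (Fin k → Bool) → Bool) : Finset (Fin n) :=
  univ.filter fun i => IsAffine (f i) ∧ ¬ AtMostOne (f i)

/-- the coordinates where `f` is not affine -/
noncomputable def Q (f : Fin n → (Fin k → Bool) → Bool) : Finset (Fin n) :=
  univ.filter fun i => ¬ IsAffine (f i)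

theorem card_EPQ (f : Fin n → (Fin k → Bool) → Bool) :
    (E f).card + (P f).card + (Q f).card = n := by
  have h1 : (E f).card + (P f).card = (univ.filter fun i => IsAffine (f i)).card := by
    rw [← card_union_of_disjoint]
    · congr 1
      ext i
      simp only [E, P, mem_union, mem_filter, mem_univ, true_and]
      constructor
      · rintro (h | h)
        · exact h.isAffine
        · exact h.1
      · intro h
        by_cases h' : AtMostOne (f i)
        · exact Or.inl h'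
        · exact Or.inr ⟨h, h'⟩
    · rw [disjoint_left]
      intro i hi hi'
      exact (mem_filter.1 hi').2.2 (mem_filter.1 hi).2
  rw [h1]
  have := card_filter_add_card_filter_not (s := (univ : Finset (Fin n)))
    (fun i => IsAffine (f i))
  rw [card_univ, Fintype.card_fin] at this
  exact this

theorem finite_bound {d : ℕ} (hd : 1 ≤ d) (f : Fin n → (Fin k → Bool) → Bool)
    (C : Finset (Fin n → Bool)) (hC : IsCode d C) (hP : Pres f C) :
    C.card ≤ A (E f).card d * ALin (P f).card d * 2 ^ ((Q f).card / d) :=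
  main_bound hd f C hC hP

theorem linear_bound {d : ℕ} (hd : 1 ≤ d) (f : Fin n → (Fin k → Bool) → Bool)
    (C : Finset (Fin n → Bool)) (hC : IsCode d C) (hP : Pres f C) :
    C.card ≤ A (E f).card d * ALin (n - (E f).card) d := by
  refine (finite_bound hd f C hC hP).trans ?_
  rw [mul_assoc]
  refine Nat.mul_le_mul_left _ ?_
  have h := card_EPQ f
  have e : n - (E f).card = (P f).card + (Q f).card := by omega
  rw [e]
  exact (Nat.mul_le_mul_left _ (two_pow_le_ALin _ d hd)).trans (ALin_mul _ _ _)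

end

theorem asym_bound {δ : ℝ} (hδ : 0 < δ) {η : ℝ} (hη : 0 < η) :
    ∃ n₀ : ℕ, ∀ n ≥ n₀, ∀ (k : ℕ) (f : Fin n → (Fin k → Bool) → Bool)
      (C : Finset (Fin n → Bool)), IsCode ⌈δ * n⌉₊ C → Pres f C →
      (C.card : ℝ) ≤ 2 ^ (R δ * (E f).card + RLin δ * (P f).card + η * n) := by
  obtain ⟨K1, hK1, h1⟩ := short_bound (F := A) A_le_two_pow one_le_A
    (fun n d d' h => A_anti h) hδ (η := η / 2) (by linarith)
  obtain ⟨K2, hK2, h2⟩ := short_bound (F := ALin) ALin_le_two_pow one_le_ALin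
    (fun n d d' h => ALin_anti h) hδ (η := η / 2) (by linarith)
  obtain ⟨n₀, hn₀⟩ := exists_nat_gt ((K1 + K2 + 1 / δ) / (η / 2))
  refine ⟨n₀ + 1, ?_⟩
  intro n hn k f C hC hP
  have hn0 : (0 : ℝ) < n := by exact_mod_cast (by omega : 0 < n)
  have hd : 1 ≤ ⌈δ * n⌉₊ := Nat.one_le_iff_ne_zero.2 (Nat.ceil_pos.2 (by positivity)).ne'
  have hle := finite_bound hd f C hC hP
  have hcard := card_EPQ f
  set d := ⌈δ * n⌉₊ with hdd
  set e := (E f).card
  set p := (P f).card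
  set q := (Q f).card
  have hA : (1 : ℝ) ≤ A e d := by exact_mod_cast one_le_A e d
  have hL : (1 : ℝ) ≤ ALin p d := by exact_mod_cast one_le_ALin p d
  have h3 : Real.logb 2 (A e d) ≤ (R δ + η / 2) * e + K1 := h1 e n (by omega)
  have h4 : Real.logb 2 (ALin p d) ≤ (RLin δ + η / 2) * p + K2 := h2 p n (by omega)
  have h5 : ((q / d : ℕ) : ℝ) ≤ 1 / δ := by
    have h6 : ((q / d : ℕ) : ℝ) ≤ (q : ℝ) / (d : ℕ) := Nat.cast_div_le
    refine h6.trans ?_
    have hdpos : (0 : ℝ) < d := by exact_mod_cast hd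
    rw [div_le_div_iff₀ hdpos hδ]
    have h7 : δ * n ≤ d := Nat.le_ceil _
    have h8 : (q : ℝ) ≤ n := by exact_mod_cast (by omega : q ≤ n)
    nlinarith
  have h6 : (C.card : ℝ) ≤ A e d * ALin p d * 2 ^ (q / d) := by exact_mod_cast hle
  refine h6.trans ?_
  have h7 : (A e d : ℝ) = 2 ^ (Real.logb 2 (A e d)) := by
    rw [Real.rpow_logb (by norm_num) (by norm_num) (by linarith)]
  have h8 : (ALin p d : ℝ) = 2 ^ (Real.logb 2 (ALin p d)) := by
    rw [Real.rpow_logb (by norm_num) (by norm_num) (by linarith)]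
  rw [h7, h8, ← Real.rpow_natCast 2 (q / d), ← Real.rpow_add (by norm_num),
    ← Real.rpow_add (by norm_num)]
  refine Real.rpow_le_rpow_of_exponent_le (by norm_num) ?_
  have h9 : K1 + K2 + 1 / δ ≤ η / 2 * n := by
    have h10 : (K1 + K2 + 1 / δ) / (η / 2) < n := hn₀.trans (by exact_mod_cast (by omega))
    rw [div_lt_iff₀ (by linarith)] at h10
    linarith
  have h10 : (e : ℝ) + p ≤ n := by exact_mod_cast (by omega : e + p ≤ n)
  nlinarith

theorem R_pos {δ : ℝ} (h0 : 0 < δ) (h1 : δ < 1 / 2) : 0 < R δ := by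
  have hH : Pool.Agent.Results.MP_0430e4_lc.ConstantWeightCriterion.H δ < 1 := by
    rw [Pool.Agent.Results.MP_0430e4_lc.ConstantWeightCriterion.H_eq',
      div_lt_one (Real.log_pos (by norm_num))]
    refine Real.binEntropy_lt_log_two.2 ?_
    intro h
    rw [h] at h1
    norm_num at h1
  set H := Pool.Agent.Results.MP_0430e4_lc.ConstantWeightCriterion.H δ
  refine lt_of_lt_of_le (by linarith : (0 : ℝ) < 1 - H) ?_
  refine le_limsup_of_frequently_le ?_ (bdd_le (rate_mem fun n => A_le_two_pow n ⌈δ * n⌉₊))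
  refine Eventually.frequently ?_
  filter_upwards [eventually_ge_atTop 1] with n hn
  have hn0 : (0 : ℝ) < n := by exact_mod_cast hn
  have hd : 1 ≤ ⌈δ * n⌉₊ := Nat.one_le_iff_ne_zero.2 (Nat.ceil_pos.2 (by positivity)).ne'
  have hdn : ⌈δ * n⌉₊ ≤ n := by
    refine Nat.ceil_le.mpr ?_
    nlinarith
  obtain ⟨V, -, hV, h2⟩ := Pool.Agent.Helper62K9.NP.gv (n := n) hd hdn
  have h3 := Pool.Agent.Results.MP_0430e4_lc.ConstantWeightCriterion.volume h0 h1.le n
  set ball := (univ.filter fun x : Fin n → Bool =>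
        hammingDist x (fun _ => false) < ⌈δ * n⌉₊).card
  have h4 : (ball : ℝ) ≤ (2 : ℝ) ^ (H * n) := by
    refine le_trans ?_ h3
    refine Nat.cast_le.mpr (card_le_card ?_)
    intro x hx
    rw [mem_filter] at hx ⊢
    refine ⟨mem_univ _, ?_⟩
    have h5 : Pool.Agent.Results.MP_0430e4_lc.ConstantWeightCriterion.weight x =
        hammingDist x (fun _ => false) := by
      unfold Pool.Agent.Results.MP_0430e4_lc.ConstantWeightCriterion.weight hammingDist
      congr 1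
      ext j
      simp
    rw [h5]
    exact (Nat.lt_ceil.mp hx.2).le
  have hVA : V.card ≤ A n ⌈δ * n⌉₊ := le_A hV
  have hA : (0 : ℝ) < A n ⌈δ * n⌉₊ := by exact_mod_cast one_le_A n _
  have h5 : (2 : ℝ) ^ (n : ℝ) ≤ A n ⌈δ * n⌉₊ * (2 : ℝ) ^ (H * n) := by
    have h6 : ((2 : ℝ) ^ n) ≤ (A n ⌈δ * n⌉₊ : ℝ) * (ball : ℝ) := by
      exact_mod_cast h2.trans (Nat.mul_le_mul_right _ hVA)
    rw [Real.rpow_natCast]
    exact h6.trans (mul_le_mul_of_nonneg_left h4 hA.le)
  have h6 := Real.logb_le_logb_of_le (b := 2) (by norm_num) (by positivity) h5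
  rw [Real.logb_rpow (by norm_num) (by norm_num), Real.logb_mul hA.ne' (by positivity),
    Real.logb_rpow (by norm_num) (by norm_num)] at h6
  rw [le_div_iff₀ hn0]
  linarith

theorem rigid {δ : ℝ} (h0 : 0 < δ) (h1 : δ < 1 / 2) {ε : ℝ} (hε : 0 < ε) :
    ∃ η > 0, ∃ n₀ : ℕ, ∀ n ≥ n₀, ∀ (k : ℕ) (f : Fin n → (Fin k → Bool) → Bool)
      (C : Finset (Fin n → Bool)), IsCode ⌈δ * n⌉₊ C → Pres f C →
      (2 : ℝ) ^ ((R δ - η) * n) ≤ C.card →
      ((Q f).card : ℝ) ≤ ε * n ∧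
        (RLin δ < R δ → ((P f).card : ℝ) + (Q f).card ≤ ε * n) := by
  have hR := R_pos h0 h1
  have hRL := RLin_nonneg δ
  -- the constant
  obtain ⟨γ, hγ, hγR, hγL⟩ : ∃ γ > 0, γ ≤ R δ ∧ (RLin δ < R δ → γ ≤ R δ - RLin δ) := by
    by_cases h : RLin δ < R δ
    · exact ⟨R δ - RLin δ, by linarith, by linarith, fun _ => le_rfl⟩
    · exact ⟨R δ, hR, le_rfl, fun h' => absurd h' h⟩
  have hle := RLin_le_R δ
  refine ⟨γ * ε / 2, by positivity, ?_⟩
  obtain ⟨n₀, hn₀⟩ := asym_bound h0 (η := γ * ε / 2) (by positivity)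
  refine ⟨n₀, ?_⟩
  intro n hn k f C hC hP hbig
  have h2 := hbig.trans (hn₀ n hn k f C hC hP)
  have h3 := (Real.rpow_le_rpow_left_iff (by norm_num : (1 : ℝ) < 2)).1 h2
  have hcard := card_EPQ f
  have hcard' : ((E f).card : ℝ) + (P f).card + (Q f).card = n := by exact_mod_cast hcard
  have hE : ((E f).card : ℝ) = n - (P f).card - (Q f).card := by linarith
  rw [hE] at h3
  have hp : (0 : ℝ) ≤ (P f).card := Nat.cast_nonneg _
  have hq : (0 : ℝ) ≤ (Q f).card := Nat.cast_nonneg _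
  have h4 : (R δ - RLin δ) * (P f).card + R δ * (Q f).card ≤ γ * ε * n := by nlinarith
  refine ⟨?_, ?_⟩
  · have h5 : γ * (Q f).card ≤ γ * (ε * n) := by
      have h6 : 0 ≤ (R δ - RLin δ) * (P f).card := mul_nonneg (by linarith) hp
      have h7 : γ * (Q f).card ≤ R δ * (Q f).card := mul_le_mul_of_nonneg_right hγR hq
      nlinarith
    exact le_of_mul_le_mul_left h5 hγ
  · intro hlt
    have h5 : γ * ((P f).card + (Q f).card) ≤ γ * (ε * n) := by
      have h6 : γ * (P f).card ≤ (R δ - RLin δ) * (P f).card :=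
        mul_le_mul_of_nonneg_right (hγL hlt) hp
      have h7 : γ * (Q f).card ≤ R δ * (Q f).card := mul_le_mul_of_nonneg_right hγR hq
      nlinarith
    exact le_of_mul_le_mul_left h5 hγ

end Helper90K9.CP
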