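import Pool.Agent.Helper62K9.NPb
import Pool.Agent.H523R4.Xor

/-!
# Binary codes closed under coordinatewise operations: basic notions
-/

set_option autoImplicit false
set_option linter.unusedSectionVars false

namespace Helper90K9.CP

open Finset

/-- all distances between different words are at least `d` -/
def IsCode {ι : Type} [Fintype ι] (d : ℕ) (C : Finset (ι → Bool)) : Prop :=
  ∀ x ∈ C, ∀ y ∈ C, x ≠ y → d ≤ hammingDist x y

/-- `C` is a linear code over the field with two elements -/
def IsLinear {ι : Type} (C : Finset (ι → Bool)) : Prop :=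
  (fun _ => false) ∈ C ∧ ∀ x ∈ C, ∀ y ∈ C, (fun i => x i ^^ y i) ∈ C

/-- the largest size of a code -/
noncomputable def A (n d : ℕ) : ℕ :=
  sSup {m | ∃ C : Finset (Fin n → Bool), IsCode d C ∧ C.card = m}

/-- the largest size of a linear code -/
noncomputable def ALin (n d : ℕ) : ℕ :=
  sSup {m | ∃ C : Finset (Fin n → Bool), IsLinear C ∧ IsCode d C ∧ C.card = m}

/-- the operation which is `f i` at the coordinate `i` maps words of `C` to words of `C` -/
def Pres {ι : Type} {k : ℕ} (f : ι → (Fin k → Bool) → Bool) (C : Finset (ι → Bool)) : Prop :=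
  ∀ c : Fin k → ι → Bool, (∀ j, c j ∈ C) → (fun i => f i (fun j => c j i)) ∈ C

/-- `f` is affine over the field with two elements -/
def IsAffine {k : ℕ} (f : (Fin k → Bool) → Bool) : Prop :=
  ∀ x y z : Fin k → Bool, f (fun i => (x i ^^ y i) ^^ z i) = ((f x ^^ f y) ^^ f z)

/-- `f` depends on its `i`-th variable -/
def DependsOn {k : ℕ} (f : (Fin k → Bool) → Bool) (i : Fin k) : Prop :=
  ∃ x : Fin k → Bool, f (Function.update x i (!x i)) ≠ f x

/-- `f` depends on at most one variable -/
def AtMostOne {k : ℕ} (f : (Fin k → Bool) → Bool) : Prop :=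
  ∀ i j, DependsOn f i → DependsOn f j → i = j

noncomputable instance {k : ℕ} (f : (Fin k → Bool) → Bool) : Decidable (IsAffine f) :=
  Classical.propDecidable _

noncomputable instance {k : ℕ} (f : (Fin k → Bool) → Bool) : Decidable (AtMostOne f) :=
  Classical.propDecidable _

/-! ### dependence on variables -/

theorem eq_of_agree {k : ℕ} (f : (Fin k → Bool) → Bool) (x y : Fin k → Bool)
    (h : ∀ i, DependsOn f i → x i = y i) : f x = f y := by
  have key : ∀ s : Finset (Fin k), f (fun i => if i ∈ s then y i else x i) = f x := by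
    intro s
    induction s using Finset.induction_on with
    | empty => simp
    | insert a s ha ih =>
      by_cases hxy : x a = y a
      · rw [← ih]
        congr 1
        funext i
        by_cases hi : i = a
        · subst hi
          simp [ha, hxy]
        · simp [hi]
      · have hnd : ¬ DependsOn f a := fun hd => hxy (h a hd)
        unfold DependsOn at hnd
        push Not at hnd
        have h1 := hnd (fun i => if i ∈ s then y i else x i)
        rw [← ih, ← h1]
        congr 1
        funext i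
        by_cases hi : i = a
        · subst hi
          simp only [Function.update_self, ha, if_false, Finset.mem_insert, true_or, if_true]
          cases hx : x i <;> cases hy : y i <;> simp_all
        · rw [Function.update_of_ne hi]
          simp [hi]
  have := key univ
  simp only [Finset.mem_univ, if_true] at this
  exact this.symm

theorem not_dependsOn_iff {k : ℕ} (f : (Fin k → Bool) → Bool) :
    (∀ i, ¬ DependsOn f i) → ∀ x y, f x = f y :=
  fun h x y => eq_of_agree f x y fun i hi => absurd hi (h i)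

theorem AtMostOne.isAffine {k : ℕ} {f : (Fin k → Bool) → Bool} (h : AtMostOne f) :
    IsAffine f := by
  intro x y z
  by_cases h1 : ∃ i, DependsOn f i
  · obtain ⟨i, hi⟩ := h1
    obtain ⟨g, hg⟩ : ∃ g : Bool → Bool, ∀ w : Fin k → Bool, f w = g (w i) := by
      refine ⟨fun b => f (fun _ => b), fun w => eq_of_agree f _ _ ?_⟩
      intro j hj
      rw [h i j hi hj]
    rw [hg, hg x, hg y, hg z]
    cases x i <;> cases y i <;> cases z i <;> cases h0 : g false <;>
      cases h1 : g true <;> simp_all
  · push Not at h1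
    have h2 := not_dependsOn_iff f h1
    rw [h2 _ x, h2 y x, h2 z x]
    cases f x <;> rfl

/-! ### the functions `A` and `ALin` -/

theorem A_bdd (n d : ℕ) : BddAbove {m | ∃ C : Finset (Fin n → Bool), IsCode d C ∧ C.card = m} := by
  refine ⟨2 ^ n, ?_⟩
  rintro k ⟨C, -, rfl⟩
  calc C.card ≤ Fintype.card (Fin n → Bool) := Finset.card_le_univ C
    _ = 2 ^ n := by simp

theorem le_A {n d : ℕ} {C : Finset (Fin n → Bool)} (h2 : IsCode d C) : C.card ≤ A n d :=
  le_csSup (A_bdd n d) ⟨C, h2, rfl⟩

theorem A_le_two_pow (n d : ℕ) : A n d ≤ 2 ^ n := by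
  refine csSup_le ⟨0, ∅, fun x hx => absurd hx (Finset.notMem_empty x), rfl⟩ ?_
  rintro k ⟨C, -, rfl⟩
  calc C.card ≤ Fintype.card (Fin n → Bool) := Finset.card_le_univ C
    _ = 2 ^ n := by simp

theorem ALin_bdd (n d : ℕ) :
    BddAbove {k | ∃ C : Finset (Fin n → Bool), IsLinear C ∧ IsCode d C ∧ C.card = k} := by
  refine ⟨2 ^ n, ?_⟩
  rintro k ⟨C, -, -, rfl⟩
  calc C.card ≤ Fintype.card (Fin n → Bool) := Finset.card_le_univ C
    _ = 2 ^ n := by simp

theorem le_ALin {n d : ℕ} {C : Finset (Fin n → Bool)} (h1 : IsLinear C) (h2 : IsCode d C) :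
    C.card ≤ ALin n d :=
  le_csSup (ALin_bdd n d) ⟨C, h1, h2, rfl⟩

theorem exists_A (n d : ℕ) : ∃ C : Finset (Fin n → Bool), IsCode d C ∧ C.card = A n d := by
  have hmem : A n d ∈ {m | ∃ C : Finset (Fin n → Bool), IsCode d C ∧ C.card = m} :=
    Nat.sSup_mem ⟨0, ∅, fun x hx => absurd hx (Finset.notMem_empty x), rfl⟩ (A_bdd n d)
  exact hmem

theorem isLinear_zero (n d : ℕ) : IsLinear ({fun _ => false} : Finset (Fin n → Bool)) ∧
    IsCode d ({fun _ => false} : Finset (Fin n → Bool)) := by
  refine ⟨⟨by simp, ?_⟩, ?_⟩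
  · intro x hx y hy
    rw [Finset.mem_singleton] at hx hy ⊢
    subst hx hy
    rfl
  · intro x hx y hy hxy
    rw [Finset.mem_singleton] at hx hy
    exact absurd (hx.trans hy.symm) hxy

theorem exists_ALin (n d : ℕ) :
    ∃ C : Finset (Fin n → Bool), IsLinear C ∧ IsCode d C ∧ C.card = ALin n d := by
  have hmem : ALin n d ∈
      {m | ∃ C : Finset (Fin n → Bool), IsLinear C ∧ IsCode d C ∧ C.card = m} :=
    Nat.sSup_mem ⟨1, {fun _ => false}, (isLinear_zero n d).1, (isLinear_zero n d).2, by simp⟩
      (ALin_bdd n d)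
  exact hmem

theorem one_le_ALin (n d : ℕ) : 1 ≤ ALin n d := by
  obtain ⟨C, h1, -, h3⟩ := exists_ALin n d
  rw [← h3]
  exact Finset.card_pos.2 ⟨_, h1.1⟩

theorem ALin_le_A (n d : ℕ) : ALin n d ≤ A n d := by
  obtain ⟨C, -, h2, h3⟩ := exists_ALin n d
  rw [← h3]
  exact le_A h2

theorem one_le_A (n d : ℕ) : 1 ≤ A n d := (one_le_ALin n d).trans (ALin_le_A n d)

theorem hammingDist_append {m n : ℕ} (x x' : Fin m → Bool) (y y' : Fin n → Bool) :
    hammingDist (Fin.append x y) (Fin.append x' y') = hammingDist x x' + hammingDist y y' := by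
  unfold hammingDist
  rw [Finset.card_filter, Finset.card_filter, Finset.card_filter, Fin.sum_univ_add]
  simp

/-- direct sums -/
theorem sum_code {m n d : ℕ} {C : Finset (Fin m → Bool)} {D : Finset (Fin n → Bool)}
    (h2 : IsCode d C) (k2 : IsCode d D) :
    ∃ F : Finset (Fin (m + n) → Bool), IsCode d F ∧ F.card = C.card * D.card ∧
      (IsLinear C → IsLinear D → IsLinear F) := by
  classical
  have hinj : Function.Injective
      (fun p : (Fin m → Bool) × (Fin n → Bool) => (Fin.append p.1 p.2 : Fin (m + n) → Bool)) := by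
    rintro ⟨x, y⟩ ⟨x', y'⟩ h
    exact (Fin.appendEquiv m n).injective h
  refine ⟨(C ×ˢ D).image
    (fun p : (Fin m → Bool) × (Fin n → Bool) => (Fin.append p.1 p.2 : Fin (m + n) → Bool)),
    ?_, ?_, ?_⟩
  · intro u hu v hv huv
    obtain ⟨⟨x, y⟩, hxy, rfl⟩ := Finset.mem_image.1 hu
    obtain ⟨⟨x', y'⟩, hxy', rfl⟩ := Finset.mem_image.1 hv
    rw [Finset.mem_product] at hxy hxy'
    rw [hammingDist_append]
    by_cases hx : x = x'
    · have hy : y ≠ y' := by
        rintro rfl
        exact huv (by rw [hx])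
      exact (k2 _ hxy.2 _ hxy'.2 hy).trans (Nat.le_add_left _ _)
    · exact (h2 _ hxy.1 _ hxy'.1 hx).trans (Nat.le_add_right _ _)
  · rw [Finset.card_image_of_injective _ hinj, Finset.card_product]
  · intro h1 k1
    refine ⟨?_, ?_⟩
    · rw [Finset.mem_image]
      refine ⟨(fun _ => false, fun _ => false), Finset.mem_product.2 ⟨h1.1, k1.1⟩, ?_⟩
      funext i
      refine Fin.addCases (fun i => ?_) (fun i => ?_) i <;> simp
    · intro u hu v hv
      obtain ⟨⟨x, y⟩, hxy, rfl⟩ := Finset.mem_image.1 hu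
      obtain ⟨⟨x', y'⟩, hxy', rfl⟩ := Finset.mem_image.1 hv
      rw [Finset.mem_product] at hxy hxy'
      refine Finset.mem_image.2 ⟨(fun i => x i ^^ x' i, fun i => y i ^^ y' i),
        Finset.mem_product.2 ⟨h1.2 _ hxy.1 _ hxy'.1, k1.2 _ hxy.2 _ hxy'.2⟩, ?_⟩
      funext i
      refine Fin.addCases (fun i => ?_) (fun i => ?_) i <;> simp

theorem ALin_mul (m n d : ℕ) : ALin m d * ALin n d ≤ ALin (m + n) d := by
  obtain ⟨C, h1, h2, h3⟩ := exists_ALin m d
  obtain ⟨D, k1, k2, k3⟩ := exists_ALin n d
  obtain ⟨F, f1, f2, f3⟩ := sum_code h2 k2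
  rw [← h3, ← k3, ← f2]
  exact le_ALin (f3 h1 k1) f1

theorem A_mul (m n d : ℕ) : A m d * A n d ≤ A (m + n) d := by
  obtain ⟨C, h2, h3⟩ := exists_A m d
  obtain ⟨D, k2, k3⟩ := exists_A n d
  obtain ⟨F, f1, f2, f3⟩ := sum_code h2 k2
  rw [← h3, ← k3, ← f2]
  exact le_A f1

theorem ALin_mono {m n : ℕ} (d : ℕ) (h : m ≤ n) : ALin m d ≤ ALin n d := by
  obtain ⟨l, rfl⟩ := Nat.exists_eq_add_of_le h
  calc ALin m d = ALin m d * 1 := (mul_one _).symm
    _ ≤ ALin m d * ALin l d := Nat.mul_le_mul_left _ (one_le_ALin l d)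
    _ ≤ _ := ALin_mul m l d

theorem A_mono {m n : ℕ} (d : ℕ) (h : m ≤ n) : A m d ≤ A n d := by
  obtain ⟨l, rfl⟩ := Nat.exists_eq_add_of_le h
  calc A m d = A m d * 1 := (mul_one _).symm
    _ ≤ A m d * A l d := Nat.mul_le_mul_left _ (one_le_A l d)
    _ ≤ _ := A_mul m l d

theorem two_pow_mul (a b d : ℕ) : 2 ^ (a / d) * 2 ^ (b / d) ≤ 2 ^ ((a + b) / d) := by
  rw [← pow_add]
  exact Nat.pow_le_pow_right (by norm_num) Nat.div_add_div_le_add_div

/-- the repetition of blocks of length `d` is a linear code -/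
theorem two_pow_le_ALin (q d : ℕ) (hd : 1 ≤ d) : 2 ^ (q / d) ≤ ALin q d := by
  rcases Nat.lt_or_ge q d with h | h
  · rw [Nat.div_eq_of_lt h, pow_zero]
    exact one_le_ALin q d
  · obtain ⟨C, h1, h2, h3⟩ := Pool.Agent.Helper62K9.NP.blocks q d hd h
    rw [← h3]
    refine le_ALin ⟨?_, ?_⟩ h2
    · have := h1 0 (fun _ => false) (fun i => i.elim0) (fun i => i.elim0)
      exact this
    · intro x hx y hy
      have := h1 2 (fun v => v 0 ^^ v 1) ![x, y] (by
        intro i
        fin_cases i
        · exact hx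
        · exact hy)
      simpa using this

/-! ### restriction to a set of coordinates -/

section res

variable {ι : Type} [Fintype ι] [DecidableEq ι]

/-- the words of `C` agree outside of `S` -/
def AgreeOff (S : Finset ι) (C : Finset (ι → Bool)) : Prop :=
  ∀ x ∈ C, ∀ y ∈ C, ∀ i, i ∉ S → x i = y i

/-- the numbering of the elements of `S` -/
noncomputable def emb (S : Finset ι) : Fin S.card ↪ ι :=
  S.equivFin.symm.toEmbedding.trans (Function.Embedding.subtype _)

omit [Fintype ι] [DecidableEq ι] in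
theorem emb_mem (S : Finset ι) (t : Fin S.card) : emb S t ∈ S := (S.equivFin.symm t).2

omit [Fintype ι] [DecidableEq ι] in
theorem exists_emb {S : Finset ι} {i : ι} (h : i ∈ S) : ∃ t, emb S t = i :=
  ⟨S.equivFin ⟨i, h⟩, by simp [emb]⟩

/-- restriction to the coordinates in `S`, after the translation by `s` -/
noncomputable def res (S : Finset ι) (s : ι → Bool) (c : ι → Bool) : Fin S.card → Bool :=
  fun t => c (emb S t) ^^ s (emb S t)

omit [DecidableEq ι] in
theorem hammingDist_res (S : Finset ι) (s x y : ι → Bool) (h : ∀ i, i ∉ S → x i = y i) :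
    hammingDist (res S s x) (res S s y) = hammingDist x y := by
  unfold hammingDist
  have h1 : (univ.filter fun i => x i ≠ y i) =
      (univ.filter fun t => res S s x t ≠ res S s y t).map (emb S) := by
    ext i
    rw [mem_map]
    simp only [mem_filter, mem_univ, true_and, res]
    constructor
    · intro hi
      have hiS : i ∈ S := by
        by_contra hiS
        exact hi (h i hiS)
      obtain ⟨t, rfl⟩ := exists_emb hiS
      refine ⟨t, ?_, rfl⟩
      simpa using hi
    · rintro ⟨t, ht, rfl⟩ hxy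
      exact ht (by rw [hxy])
  rw [h1, card_map]

theorem res_injOn {S : Finset ι} (s : ι → Bool) {C : Finset (ι → Bool)} (h : AgreeOff S C) :
    Set.InjOn (res S s) (C : Set (ι → Bool)) := by
  intro x hx y hy hxy
  have h1 := hammingDist_res S s x y (h x hx y hy)
  rw [hxy, hammingDist_self] at h1
  exact (hammingDist_eq_zero.1 h1.symm)

theorem isCode_res {S : Finset ι} {s : ι → Bool} {C : Finset (ι → Bool)} {d : ℕ}
    (h : AgreeOff S C) (hC : IsCode d C) : IsCode d (C.image (res S s)) := by
  intro u hu v hv huv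
  obtain ⟨x, hx, rfl⟩ := mem_image.1 hu
  obtain ⟨y, hy, rfl⟩ := mem_image.1 hv
  rw [hammingDist_res S s x y (h x hx y hy)]
  exact hC x hx y hy fun h => huv (by rw [h])

theorem card_le_A {S : Finset ι} {C : Finset (ι → Bool)} {d : ℕ} (h : AgreeOff S C)
    (hC : IsCode d C) : C.card ≤ A S.card d := by
  rw [← card_image_of_injOn (res_injOn (fun _ => false) h)]
  exact le_A (isCode_res h hC)

/-- `C` is closed under `g` on the coordinates in `S`, up to the translation by `s` -/
def ClosedOn {k : ℕ} (S : Finset ι) (s : ι → Bool) (g : (Fin k → Bool) → Bool)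
    (C : Finset (ι → Bool)) : Prop :=
  ∀ a : Fin k → ι → Bool, (∀ j, a j ∈ C) →
    ∃ c ∈ C, ∀ i ∈ S, c i = (g (fun j => a j i ^^ s i) ^^ s i)

theorem closed_res {k : ℕ} {S : Finset ι} {s : ι → Bool} {g : (Fin k → Bool) → Bool}
    {C : Finset (ι → Bool)} (hcl : ClosedOn S s g C) :
    Pool.Agent.Helper62K9.NP.ClosedUnder g (C.image (res S s)) := by
  intro a ha
  have h1 : ∀ j, ∃ b ∈ C, res S s b = a j := fun j => by simpa using ha j
  choose b hb hab using h1
  obtain ⟨c, hc, hc'⟩ := hcl b hb
  rw [mem_image]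
  refine ⟨c, hc, ?_⟩
  funext t
  simp only [res, ← hab]
  rw [hc' _ (emb_mem S t)]
  cases g (fun j => b j (emb S t) ^^ s (emb S t)) <;>
    cases s (emb S t) <;> rfl

theorem card_le_two_pow {k d : ℕ} (hd : 1 ≤ d) {S : Finset ι} {s : ι → Bool}
    {g : (Fin k → Bool) → Bool} {C : Finset (ι → Bool)} (h : AgreeOff S C) (hC : IsCode d C)
    (hcl : ClosedOn S s g C) (hg : ¬ IsAffine g) : C.card ≤ 2 ^ (S.card / d) := by
  rw [← card_image_of_injOn (res_injOn s h)]
  exact Pool.Agent.Helper62K9.NP.bound hd g hg _ (isCode_res h hC) (closed_res hcl)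

theorem card_le_ALin {k d : ℕ} {S : Finset ι} {s : ι → Bool}
    {g : (Fin k → Bool) → Bool} {C : Finset (ι → Bool)} (h : AgreeOff S C) (hC : IsCode d C)
    (hcl : ClosedOn S s g C) (hg : IsAffine g) (h0 : g (fun _ => false) = false)
    (hone : ¬ AtMostOne g) : C.card ≤ ALin S.card d := by
  classical
  rcases C.eq_empty_or_nonempty with rfl | ⟨c₀, hc₀⟩
  · simp
  unfold AtMostOne at hone
  push Not at hone
  obtain ⟨i, j, hi, hj, hij⟩ := hone
  have h1 := Pool.Agent.H523R4.BC.affine_closed g hg h0 i j hij hi hj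
    ((C.image (res S s) : Finset _) : Set (Fin S.card → Bool)) (closed_res hcl)
  set D : Finset (Fin S.card → Bool) := (C.image (res S s)).image
    (fun x t => x t ^^ res S s c₀ t) with hD
  have hinj : Function.Injective (fun (x : Fin S.card → Bool) t => x t ^^ res S s c₀ t) := by
    intro x y hxy
    funext t
    have := congrFun hxy t
    simpa using this
  have hcard : D.card = C.card := by
    rw [hD, card_image_of_injective _ hinj, card_image_of_injOn (res_injOn s h)]
  rw [← hcard]
  have hmem : ∀ x, x ∈ D ↔ (fun t => x t ^^ res S s c₀ t) ∈ C.image (res S s) := by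
    intro x
    rw [hD, mem_image]
    constructor
    · rintro ⟨y, hy, rfl⟩
      have : (fun t => (y t ^^ res S s c₀ t) ^^ res S s c₀ t) = y := by
        funext t
        cases y t <;> cases res S s c₀ t <;> rfl
      rw [this]
      exact hy
    · intro hx
      refine ⟨_, hx, ?_⟩
      funext t
      cases x t <;> cases res S s c₀ t <;> rfl
  have hc₀' : res S s c₀ ∈ C.image (res S s) := mem_image_of_mem _ hc₀
  refine le_ALin ⟨?_, ?_⟩ ?_
  · rw [hmem]
    simpa using hc₀'
  · intro x hx y hy
    rw [hmem] at hx hy ⊢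
    have := h1 _ (mem_coe.2 hx) _ (mem_coe.2 hy) _ (mem_coe.2 hc₀')
    rw [mem_coe] at this
    convert this using 1
    funext t
    cases x t <;> cases y t <;> cases res S s c₀ t <;> rfl
  · intro x hx y hy hxy
    rw [hmem] at hx hy
    have h2 := isCode_res (s := s) h hC _ hx _ hy (fun h => hxy (by
      funext t
      have := congrFun h t
      simpa using this))
    refine h2.trans (le_of_eq ?_)
    unfold hammingDist
    congr 1
    ext t
    simp

end res

end Helper90K9.CP
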