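import Pool.Agent.Helper90K9.CP.Idem

/-!
# Codes closed under coordinatewise operations with a constant diagonal
-/

set_option autoImplicit false
set_option linter.unusedSectionVars false

namespace Helper90K9.CP

open Finset

section

variable {ι : Type} [Fintype ι] [DecidableEq ι] {k : ℕ}

/-- the operation `g` translated by `s` -/
def shift (s : Bool) (g : (Fin k → Bool) → Bool) : (Fin k → Bool) → Bool :=
  fun v => g (fun j => v j ^^ s) ^^ s

theorem shift_isAffine (s : Bool) (g : (Fin k → Bool) → Bool) :
    IsAffine (shift s g) ↔ IsAffine g := by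
  cases s
  · have : shift false g = g := by
      funext v
      simp [shift]
    rw [this]
  · constructor
    · intro h x y z
      have h1 := h (fun j => !(x j)) (fun j => !(y j)) (fun j => !(z j))
      simp only [shift, Bool.xor_true, Bool.not_not] at h1
      have e1 : (fun i => !(((!(x i)) ^^ (!(y i))) ^^ (!(z i)))) =
          (fun i => (x i ^^ y i) ^^ z i) := by
        funext i; cases x i <;> cases y i <;> cases z i <;> rfl
      rw [e1] at h1
      revert h1
      cases g x <;> cases g y <;> cases g z <;> cases g (fun i => (x i ^^ y i) ^^ z i) <;> simp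
    · intro h x y z
      have h1 := h (fun j => !(x j)) (fun j => !(y j)) (fun j => !(z j))
      simp only [shift, Bool.xor_true]
      have e1 : (fun i => !((x i ^^ y i) ^^ z i)) =
          (fun i => ((!(x i)) ^^ (!(y i))) ^^ (!(z i))) := by
        funext i; cases x i <;> cases y i <;> cases z i <;> rfl
      rw [e1, h1]
      cases g (fun j => !(x j)) <;> cases g (fun j => !(y j)) <;> cases g (fun j => !(z j)) <;> rfl

theorem shift_shift (s : Bool) (g : (Fin k → Bool) → Bool) : shift s (shift s g) = g := by
  funext v
  simp only [shift]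
  cases s
  · simp
  · simp

theorem dependsOn_of_shift (s : Bool) (g : (Fin k → Bool) → Bool) (j : Fin k)
    (h : DependsOn (shift s g) j) : DependsOn g j := by
  obtain ⟨x, hx⟩ := h
  refine ⟨fun l => x l ^^ s, ?_⟩
  intro h
  apply hx
  simp only [shift]
  congr 1
  rw [← h]
  congr 1
  funext l
  by_cases hl : l = j
  · subst hl
    cases s <;> simp
  · simp [hl]

theorem shift_atMostOne (s : Bool) (g : (Fin k → Bool) → Bool) :
    AtMostOne (shift s g) ↔ AtMostOne g := by
  constructor
  · intro h i j hi hj
    refine h i j (dependsOn_of_shift s _ i ?_) (dependsOn_of_shift s _ j ?_)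
    · rw [shift_shift]; exact hi
    · rw [shift_shift]; exact hj
  · intro h i j hi hj
    exact h i j (dependsOn_of_shift s g i hi) (dependsOn_of_shift s g j hj)

/-- the case of a constant diagonal -/
theorem const_bound {d : ℕ} (hd : 1 ≤ d) (f : ι → (Fin k → Bool) → Bool) (S : Finset ι)
    (C : Finset (ι → Bool)) (κ : ι → Bool) (hκ : κ ∈ C) (hoff : ∀ x ∈ C, ∀ i, i ∉ S → x i = κ i)
    (hfix : ∀ i, i ∉ S → f i (fun _ => κ i) = κ i)
    (hconst : ∀ i ∈ S, ∀ b, f i (fun _ => b) = κ i)
    (hC : IsCode d C) (hP : Pres f C) : C.card ≤ B f d S := by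
  classical
  set r : Finset ι → (ι → Bool) → (ι → Bool) := fun Z c i => if i ∈ Z then c i else κ i with hr
  set τ : ι → (Fin k → Bool) → Bool := fun i => shift (κ i) (f i) with hτ
  have hτ0 : ∀ i, τ i (fun _ => false) = false := by
    intro i
    simp only [hτ, shift, Bool.false_xor]
    by_cases hi : i ∈ S
    · rw [hconst i hi]; simp
    · rw [hfix i hi]; simp
  have hτ1 : ∀ i ∈ S, τ i (fun _ => true) = false := by
    intro i hi
    simp only [hτ, shift]
    rw [hconst i hi]; simp
  -- the restrictions which preserve the code
  set F : Finset ι → Prop := fun Z => Z ⊆ S ∧ ∀ c ∈ C, r Z c ∈ C with hF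
  have hFS : F S := by
    refine ⟨subset_rfl, ?_⟩
    intro c hc
    have : r S c = c := by
      funext i
      simp only [hr]
      split_ifs with hi
      · rfl
      · exact (hoff c hc i hi).symm
    rw [this]
    exact hc
  have hF0 : F ∅ := by
    refine ⟨empty_subset _, ?_⟩
    intro c _
    have : r ∅ c = κ := by
      funext i
      simp [hr]
    rw [this]
    exact hκ
  have hFinter : ∀ Z Z', F Z → F Z' → F (Z ∩ Z') := by
    intro Z Z' h h'
    refine ⟨inter_subset_left.trans h.1, ?_⟩
    intro c hc
    have : r (Z ∩ Z') c = r Z (r Z' c) := by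
      funext i
      simp only [hr, mem_inter]
      by_cases h1 : i ∈ Z <;> by_cases h2 : i ∈ Z' <;> simp [h1, h2]
    rw [this]
    exact h.2 _ (h'.2 _ hc)
  have hFt : ∀ Z : Fin k → Finset ι, (∀ j, F (Z j)) →
      F (S.filter fun i => τ i (fun j => decide (i ∈ Z j)) = true) := by
    intro Z hZ
    refine ⟨filter_subset _ _, ?_⟩
    intro c hc
    have h1 := hP (fun j => r (Z j) c) fun j => (hZ j).2 c hc
    convert h1 using 1
    funext i
    simp only [hr, mem_filter]
    by_cases hi : i ∈ S
    · simp only [hi, true_and]
      by_cases hci : c i = κ i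
      · rw [hci]
        simp only [ite_self]
        exact (hconst i hi _).symm
      · have hci' : c i = !(κ i) := by
          cases h2 : c i <;> cases h3 : κ i <;> simp_all
        have e : (fun j => if i ∈ Z j then c i else κ i) =
            fun j => (decide (i ∈ Z j) ^^ κ i) := by
          funext j
          rw [hci']
          by_cases hj : i ∈ Z j <;> simp [hj]
        rw [e]
        have e2 : f i (fun j => (decide (i ∈ Z j) ^^ κ i)) =
            (τ i (fun j => decide (i ∈ Z j)) ^^ κ i) := by
          simp only [hτ, shift]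
          cases f i (fun j => (decide (i ∈ Z j) ^^ κ i)) <;> cases κ i <;> rfl
        rw [e2, hci']
        cases τ i (fun j => decide (i ∈ Z j)) <;> simp
    · simp only [hi, false_and, if_false]
      have e : (fun j => if i ∈ Z j then c i else κ i) = fun _ : Fin k => κ i := by
        funext j
        rw [hoff c hc i hi, ite_self]
      rw [e, hfix i hi]
  -- the least sets
  have hM : ∀ i ∈ S, ∃ M, F M ∧ i ∈ M ∧ ∀ Z, F Z → i ∈ Z → M ⊆ Z := by
    intro i hi
    obtain ⟨M, hM, hmin⟩ := exists_min_image (S.powerset.filter fun Z => F Z ∧ i ∈ Z)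
      (fun Z => Z.card) ⟨S, mem_filter.2 ⟨mem_powerset_self S, hFS, hi⟩⟩
    have hM' := (mem_filter.1 hM).2
    refine ⟨M, hM'.1, hM'.2, ?_⟩
    intro Z hZ hiZ
    have h1 := hFinter M Z hM'.1 hZ
    have h2 := hmin (M ∩ Z) (mem_filter.2 ⟨mem_powerset.2 h1.1, h1, mem_inter.2 ⟨hM'.2, hiZ⟩⟩)
    have h3 : M ∩ Z = M := eq_of_subset_of_card_le inter_subset_left h2
    exact inter_eq_left.1 h3
  choose! M hMF hMi hMmin using hM
  set W := S.filter fun i => ∃ v, τ i v = true with hW
  have hWS : W ⊆ S := filter_subset _ _
  have hatomW : ∀ i ∈ W, M i ⊆ W := by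
    intro i hi i' hi'
    obtain ⟨hiS, v, hv⟩ := mem_filter.1 hi
    have hi'S : i' ∈ S := (hMF i hiS).1 hi'
    refine mem_filter.2 ⟨hi'S, ?_⟩
    have h1 := hFt (fun j => if v j = true then M i else ∅) (by
      intro j
      by_cases hj : v j = true
      · simp only [hj, if_true]
        exact hMF i hiS
      · simp only [hj, if_false]
        exact hF0)
    have h2 : i ∈ S.filter fun l => τ l (fun j => decide (l ∈ (if v j = true then M i else ∅))) =
        true := by
      refine mem_filter.2 ⟨hiS, (congrArg (τ i) ?_).trans hv⟩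
      funext j
      by_cases hj : v j = true
      · simp [hj, hMi i hiS]
      · simp [hj]
    have h3 := hMmin i hiS _ h1 h2 hi'
    exact ⟨_, (mem_filter.1 h3).2⟩
  have hatom : ∀ i ∈ W, ∀ i' ∈ M i, M i' = M i := by
    intro i hi i' hi'
    obtain ⟨hiS, v, hv⟩ := mem_filter.1 hi
    have hi'S : i' ∈ S := (hMF i hiS).1 hi'
    have hsub : M i' ⊆ M i := hMmin i' hi'S _ (hMF i hiS) hi'
    refine subset_antisymm hsub ?_
    refine hMmin i hiS _ (hMF i' hi'S) ?_
    by_contra hnot
    have h1 := hFt (fun j => if v j = true then M i else M i') (by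
      intro j
      by_cases hj : v j = true
      · simp only [hj, if_true]
        exact hMF i hiS
      · simp only [hj, if_false]
        exact hMF i' hi'S)
    have h2 : i ∈ S.filter fun l => τ l (fun j => decide (l ∈ (if v j = true then M i else M i'))) =
        true := by
      refine mem_filter.2 ⟨hiS, (congrArg (τ i) ?_).trans hv⟩
      funext j
      by_cases hj : v j = true
      · simp [hj, hMi i hiS]
      · simp [hj, hnot]
    have h3 := (mem_filter.1 (hMmin i hiS _ h1 h2 hi')).2
    have h4 : (fun j => decide (i' ∈ (if v j = true then M i else M i'))) =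
        fun _ : Fin k => true := by
      funext j
      by_cases hj : v j = true
      · simp [hj, hi']
      · simp [hj, hMi i' hi'S]
    rw [h4, hτ1 i' hi'S] at h3
    exact absurd h3 (by simp)
  have hunif : ∀ i ∈ W, ∀ i' ∈ M i, τ i' = τ i := by
    intro i hi i' hi'
    have hiS : i ∈ S := hWS hi
    have hi'S : i' ∈ S := (hMF i hiS).1 hi'
    have key : ∀ v, ∀ l ∈ M i, τ l v = true → ∀ l' ∈ M i, τ l' v = true := by
      intro v l hl hlv l' hl'
      have hlS : l ∈ S := (hMF i hiS).1 hl
      have hl'S : l' ∈ S := (hMF i hiS).1 hl'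
      have h1 := hFt (fun j => if v j = true then M i else ∅) (by
        intro j
        by_cases hj : v j = true
        · simp only [hj, if_true]
          exact hMF i hiS
        · simp only [hj, if_false]
          exact hF0)
      have hval : ∀ p ∈ M i, (fun j => decide (p ∈ (if v j = true then M i else ∅))) = v := by
        intro p hp
        funext j
        by_cases hj : v j = true
        · simp [hj, hp]
        · simp [hj]
      have h2 : l ∈ S.filter fun l => τ l (fun j => decide (l ∈ (if v j = true then M i else ∅))) =
          true := by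
        refine mem_filter.2 ⟨hlS, ?_⟩
        rw [hval l hl]
        exact hlv
      have h3 := hMmin l hlS _ h1 h2 (by rw [hatom i hi l hl]; exact hl')
      have h4 := (mem_filter.1 h3).2
      rw [hval l' hl'] at h4
      exact h4
    funext v
    have h1 := key v i (hMi i hiS)
    have h2 := key v i' hi'
    cases h3 : τ i' v <;> cases h4 : τ i v
    · rfl
    · exact absurd (h1 h4 i' hi') (by simp [h3])
    · exact absurd (h2 h3 i (hMi i hiS)) (by simp [h4])
    · rfl
  have hnotone : ∀ i ∈ W, ¬ AtMostOne (τ i) := by
    intro i hi hone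
    obtain ⟨hiS, v, hv⟩ := mem_filter.1 hi
    by_cases h1 : ∃ j, DependsOn (τ i) j
    · obtain ⟨j, hj⟩ := h1
      have h2 : τ i v = τ i (fun _ => v j) := by
        refine eq_of_agree _ _ _ ?_
        intro l hl
        rw [hone j l hj hl]
      rw [hv] at h2
      cases h3 : v j
      · rw [h3, hτ0] at h2
        exact absurd h2 (by simp)
      · rw [h3, hτ1 i hiS] at h2
        exact absurd h2 (by simp)
    · push Not at h1
      have h2 := not_dependsOn_iff _ h1 v (fun _ => false)
      rw [hv, hτ0] at h2
      exact absurd h2 (by simp)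
  -- the bound for an atom
  have hB : ∀ i ∈ W, (C.image (r (M i))).card ≤ B f d (M i) := by
    intro i hi
    have hiS : i ∈ S := hWS hi
    have hsub : C.image (r (M i)) ⊆ C := by
      intro x hx
      obtain ⟨c, hc, rfl⟩ := mem_image.1 hx
      exact (hMF i hiS).2 c hc
    have hidem : ∀ c, r (M i) (r (M i) c) = r (M i) c := by
      intro c
      funext l
      simp only [hr]
      split_ifs <;> rfl
    have hoff' : AgreeOff (M i) (C.image (r (M i))) := by
      intro x hx y hy l hl
      obtain ⟨c, _, rfl⟩ := mem_image.1 hx
      obtain ⟨c', _, rfl⟩ := mem_image.1 hy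
      simp [hr, hl]
    have hC' : IsCode d (C.image (r (M i))) := fun x hx y hy => hC x (hsub hx) y (hsub hy)
    have hcl : ClosedOn (M i) κ (τ i) (C.image (r (M i))) := by
      intro a ha
      refine ⟨_, mem_image_of_mem _ (hP a fun j => hsub (ha j)), ?_⟩
      intro l hl
      rw [← hunif i hi l hl]
      have e : (fun j => (a j l ^^ κ l) ^^ κ l) = fun j => a j l := by
        funext j
        cases a j l <;> cases κ l <;> rfl
      simp only [hr, hl, if_true, hτ, shift, e]
      cases f l (fun j => a j l) <;> cases κ l <;> rfl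
    by_cases haff : IsAffine (τ i)
    · refine (card_le_ALin hoff' hC' hcl haff (hτ0 i) (hnotone i hi)).trans (le_B_P f d ?_ ?_)
      · intro l hl
        rw [← shift_isAffine (κ l) (f l)]
        change IsAffine (τ l)
        rw [hunif i hi l hl]
        exact haff
      · intro l hl
        rw [← shift_atMostOne (κ l) (f l)]
        change ¬ AtMostOne (τ l)
        rw [hunif i hi l hl]
        exact hnotone i hi
    · refine (card_le_two_pow hd hoff' hC' hcl haff).trans (le_B_Q f d ?_)
      intro l hl
      rw [← shift_isAffine (κ l) (f l)]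
      change ¬ IsAffine (τ l)
      rw [hunif i hi l hl]
      exact haff
  -- unions of atoms
  have hunion : ∀ (m : ℕ) (T : Finset ι), T.card = m → T ⊆ W → (∀ i ∈ T, M i ⊆ T) →
      (C.image (r T)).card ≤ B f d T := by
    intro m
    induction m using Nat.strong_induction_on with
    | _ m ih =>
    intro T hTm hTW hT
    rcases T.eq_empty_or_nonempty with rfl | ⟨i, hi⟩
    · refine le_trans ?_ (one_le_B f d ∅)
      rw [card_le_one]
      intro x hx y hy
      obtain ⟨c, _, rfl⟩ := mem_image.1 hx
      obtain ⟨c', _, rfl⟩ := mem_image.1 hy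
      simp [hr]
    · have hiW := hTW hi
      have hiS := hWS hiW
      have hrest : ∀ l ∈ T \ M i, M l ⊆ T \ M i := by
        intro l hl p hp
        rw [mem_sdiff] at hl ⊢
        have hlW := hTW hl.1
        refine ⟨hT l hl.1 hp, ?_⟩
        intro hpi
        have h1 : M p = M i := hatom i hiW p hpi
        have h2 : M p = M l := hatom l hlW p hp
        exact hl.2 (by rw [← h1, h2]; exact hMi l (hWS hlW))
      have hlt : (T \ M i).card < m := by
        rw [← hTm]
        exact card_lt_card (Finset.ssubset_iff_subset_ne.2 ⟨sdiff_subset, fun h => by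
          have h2 : i ∈ T \ M i := by rw [h]; exact hi
          exact (mem_sdiff.1 h2).2 (hMi i hiS)⟩)
      have h1 := ih _ hlt _ rfl (sdiff_subset.trans hTW) hrest
      have h2 := hB i hiW
      have hinj : (C.image (r T)).card ≤
          ((C.image (r (M i))) ×ˢ (C.image (r (T \ M i)))).card := by
        refine card_le_card_of_injOn (fun c => (r (M i) c, r (T \ M i) c)) ?_ ?_
        · intro x hx
          rw [mem_coe] at hx
          obtain ⟨c, hc, rfl⟩ := mem_image.1 hx
          simp only [coe_product, Set.mem_prod, mem_coe]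
          refine ⟨mem_image.2 ⟨c, hc, ?_⟩, mem_image.2 ⟨c, hc, ?_⟩⟩
          · funext l
            simp only [hr]
            by_cases hl : l ∈ M i
            · simp [hl, hT i hi hl]
            · simp [hl]
          · funext l
            simp only [hr]
            by_cases hl : l ∈ T \ M i
            · simp [hl, (mem_sdiff.1 hl).1]
            · simp [hl]
        · intro x hx y hy hxy
          rw [mem_coe] at hx hy
          obtain ⟨c, hc, rfl⟩ := mem_image.1 hx
          obtain ⟨c', hc', rfl⟩ := mem_image.1 hy
          simp only [Prod.mk.injEq] at hxy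
          funext l
          have h3 := congrFun hxy.1 l
          have h4 := congrFun hxy.2 l
          by_cases hl : l ∈ M i
          · simpa [hr, hl] using h3
          · by_cases hlT : l ∈ T
            · simpa [hr, hl, hlT] using h4
            · simp [hr, hlT]
      rw [card_product] at hinj
      calc _ ≤ _ := hinj
        _ ≤ B f d (M i) * B f d (T \ M i) := Nat.mul_le_mul h2 h1
        _ ≤ B f d (M i ∪ (T \ M i)) := B_mul f d disjoint_sdiff
        _ = B f d T := by rw [union_sdiff_of_subset (hT i hi)]
  -- the rest
  have hfib : ∀ y ∈ C.image (r W), (C.filter fun x => r W x = y).card ≤ B f d (S \ W) := by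
    intro y _
    refine (card_le_A (S := S \ W) (d := d) ?_ ?_).trans (le_B_E f d ?_)
    · intro x hx x' hx' i hi
      have h2 := (mem_filter.1 hx).2
      have h3 := (mem_filter.1 hx').2
      by_cases hiW : i ∈ W
      · have h4 := congrFun (h2.trans h3.symm) i
        simpa [hr, hiW] using h4
      · have hiS : i ∉ S := fun h => hi (mem_sdiff.2 ⟨h, hiW⟩)
        rw [hoff x (mem_filter.1 hx).1 i hiS, hoff x' (mem_filter.1 hx').1 i hiS]
    · exact fun x hx x' hx' => hC x (mem_filter.1 hx).1 x' (mem_filter.1 hx').1
    · intro i hi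
      rw [← shift_atMostOne (κ i) (f i)]
      change AtMostOne (τ i)
      intro j _ hj _
      exfalso
      obtain ⟨v, hv⟩ := hj
      obtain ⟨hiS, hiW⟩ := mem_sdiff.1 hi
      have h1 : ∀ v, τ i v = false := by
        intro v
        by_contra h
        exact hiW (mem_filter.2 ⟨hiS, v, by simpa using h⟩)
      exact hv (by rw [h1, h1])
  calc C.card ≤ B f d (S \ W) * (C.image (r W)).card := card_le_mul_card_image C _ hfib
    _ ≤ B f d (S \ W) * B f d W := Nat.mul_le_mul_left _ (hunion _ W rfl subset_rfl hatomW)
    _ ≤ B f d ((S \ W) ∪ W) := B_mul f d sdiff_disjoint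
    _ = B f d S := by rw [sdiff_union_of_subset hWS]

end

end Helper90K9.CP
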