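import Pool.Agent.Helper90K9.CP.Basic

/-!
# Codes closed under idempotent coordinatewise operations
-/

set_option autoImplicit false
set_option linter.unusedSectionVars false

namespace Helper90K9.CP

open Finset

/-- the bound for the coordinates in `S` -/
noncomputable def B {ι : Type} {k : ℕ} (f : ι → (Fin k → Bool) → Bool) (d : ℕ)
    (S : Finset ι) : ℕ :=
  A (S.filter fun i => AtMostOne (f i)).card d *
    ALin (S.filter fun i => IsAffine (f i) ∧ ¬ AtMostOne (f i)).card d *
    2 ^ ((S.filter fun i => ¬ IsAffine (f i)).card / d)

section

variable {ι : Type} {k : ℕ} (f : ι → (Fin k → Bool) → Bool) (d : ℕ)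

theorem one_le_B (S : Finset ι) : 1 ≤ B f d S := by
  unfold B
  have h1 := one_le_A (S.filter fun i => AtMostOne (f i)).card d
  have h2 := one_le_ALin (S.filter fun i => IsAffine (f i) ∧ ¬ AtMostOne (f i)).card d
  have h3 : 1 ≤ 2 ^ ((S.filter fun i => ¬ IsAffine (f i)).card / d) := Nat.one_le_two_pow
  exact Nat.mul_pos (Nat.mul_pos h1 h2) h3

theorem B_mul [DecidableEq ι] {S T : Finset ι} (h : Disjoint S T) :
    B f d S * B f d T ≤ B f d (S ∪ T) := by
  unfold B
  rw [filter_union, filter_union, filter_union,
    card_union_of_disjoint (disjoint_filter_filter h),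
    card_union_of_disjoint (disjoint_filter_filter h),
    card_union_of_disjoint (disjoint_filter_filter h)]
  set a := (S.filter fun i => AtMostOne (f i)).card
  set a' := (T.filter fun i => AtMostOne (f i)).card
  set b := (S.filter fun i => IsAffine (f i) ∧ ¬ AtMostOne (f i)).card
  set b' := (T.filter fun i => IsAffine (f i) ∧ ¬ AtMostOne (f i)).card
  set c := (S.filter fun i => ¬ IsAffine (f i)).card
  set c' := (T.filter fun i => ¬ IsAffine (f i)).card
  calc A a d * ALin b d * 2 ^ (c / d) * (A a' d * ALin b' d * 2 ^ (c' / d))
      = (A a d * A a' d) * (ALin b d * ALin b' d) * (2 ^ (c / d) * 2 ^ (c' / d)) := by ring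
    _ ≤ _ := Nat.mul_le_mul (Nat.mul_le_mul (A_mul _ _ _) (ALin_mul _ _ _)) (two_pow_mul _ _ _)

theorem B_mono [DecidableEq ι] {S T : Finset ι} (h : S ⊆ T) : B f d S ≤ B f d T := by
  calc B f d S = B f d S * 1 := (mul_one _).symm
    _ ≤ B f d S * B f d (T \ S) := Nat.mul_le_mul_left _ (one_le_B f d _)
    _ ≤ B f d (S ∪ (T \ S)) := B_mul f d disjoint_sdiff
    _ = B f d T := by rw [union_sdiff_of_subset h]

theorem le_B_E {S : Finset ι} (h : ∀ i ∈ S, AtMostOne (f i)) : A S.card d ≤ B f d S := by
  unfold B
  rw [filter_true_of_mem h]
  calc A S.card d = A S.card d * 1 * 1 := by ring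
    _ ≤ _ := Nat.mul_le_mul (Nat.mul_le_mul_left _ (one_le_ALin _ _)) Nat.one_le_two_pow

theorem le_B_P {S : Finset ι} (h : ∀ i ∈ S, IsAffine (f i)) (h' : ∀ i ∈ S, ¬ AtMostOne (f i)) :
    ALin S.card d ≤ B f d S := by
  unfold B
  rw [filter_true_of_mem (p := fun i => IsAffine (f i) ∧ ¬ AtMostOne (f i))
    fun i hi => ⟨h i hi, h' i hi⟩]
  calc ALin S.card d = 1 * ALin S.card d * 1 := by ring
    _ ≤ _ := Nat.mul_le_mul (Nat.mul_le_mul_right _ (one_le_A _ _)) Nat.one_le_two_pow

theorem le_B_Q {S : Finset ι} (h : ∀ i ∈ S, ¬ IsAffine (f i)) : 2 ^ (S.card / d) ≤ B f d S := by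
  unfold B
  rw [filter_true_of_mem (p := fun i => ¬ IsAffine (f i)) h]
  calc 2 ^ (S.card / d) = 1 * 1 * 2 ^ (S.card / d) := by ring
    _ ≤ _ := Nat.mul_le_mul_right _ (Nat.mul_le_mul (one_le_A _ _) (one_le_ALin _ _))

end

section

variable {ι : Type} [Fintype ι] [DecidableEq ι] {k : ℕ}

theorem not_isAffine_of_not_selfdual {g : (Fin k → Bool) → Bool} (hid : ∀ b, g (fun _ => b) = b)
    {a : Fin k → Bool} (ha : g a = g (fun j => !(a j))) : ¬ IsAffine g := by
  intro h
  have h1 := h a (fun j => !(a j)) (fun _ => false)
  have h2 : (fun j => (a j ^^ !(a j)) ^^ false) = fun _ => true := by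
    funext j
    cases a j <;> rfl
  rw [h2, hid, ← ha, hid] at h1
  cases h3 : g a <;> rw [h3] at h1 <;> simp at h1

/-- the idempotent case -/
theorem idem_bound {d : ℕ} (hd : 1 ≤ d) (f : ι → (Fin k → Bool) → Bool) :
    ∀ (m : ℕ) (S : Finset ι) (C : Finset (ι → Bool)), S.card = m → AgreeOff S C →
      (∀ x ∈ C, ∀ i, f i (fun _ => x i) = x i) → (∀ i ∈ S, ∀ b, f i (fun _ => b) = b) →
      IsCode d C → Pres f C → C.card ≤ B f d S := by
  intro m
  induction m using Nat.strong_induction_on with
  | _ m ih =>
  intro S C hSm hoff hfix hid hC hP
  rcases C.eq_empty_or_nonempty with rfl | ⟨c₀, hc₀⟩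
  · simp
  by_cases h1 : ∃ (a : Fin k → Bool), ∃ i ∈ S, f i a = f i (fun j => !(a j))
  · -- a conjunction or a disjunction
    obtain ⟨a, i₀, hi₀S, hi₀⟩ := h1
    set S1 := S.filter fun i => f i a = f i (fun j => !(a j)) with hS1
    have hS1S : S1 ⊆ S := filter_subset _ _
    have hi₀1 : i₀ ∈ S1 := mem_filter.2 ⟨hi₀S, hi₀⟩
    -- the binary operation `b`
    have hb : ∀ x ∈ C, ∀ y ∈ C, (fun i => f i (fun j => if a j then x i else y i)) ∈ C := by
      intro x hx y hy
      have := hP (fun j => if a j then x else y) (by
        intro j
        by_cases hj : a j = true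
        · simpa [hj] using hx
        · simpa [hj] using hy)
      convert this using 1
      funext i
      congr 1
      funext j
      by_cases hj : a j = true <;> simp [hj]
    have hbval : ∀ i ∈ S, ∀ p q : Bool, f i (fun j => if a j then p else q) =
        if p = q then p else (if p then f i a else f i (fun j => !(a j))) := by
      intro i hi p q
      cases p <;> cases q
      · simp only [ite_self]
        simpa using hid i hi false
      · simp only [Bool.false_eq_true, if_false]
        congr 1
        funext j
        cases a j <;> rfl
      · simp only [Bool.true_eq_false, if_true, if_false]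
        congr 1
        funext j
        cases a j <;> rfl
      · simp only [ite_self, if_true]
        simpa using hid i hi true
    -- the operation `m`
    have hm : ∀ x ∈ C, ∀ y ∈ C, (fun i => if i ∈ S1 ∧ x i ≠ y i then f i a else x i) ∈ C := by
      intro x hx y hy
      have h2 := hb x hx _ (hb y hy x hx)
      convert h2 using 1
      funext i
      by_cases hiS : i ∈ S
      · rw [hbval i hiS, hbval i hiS]
        by_cases hi1 : i ∈ S1
        · have hi2 : f i (fun j => !(a j)) = f i a := (mem_filter.1 hi1).2.symm
          rw [hi2]
          cases x i <;> cases y i <;> cases f i a <;> simp [hi1]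
        · have hi2 : f i (fun j => !(a j)) = !(f i a) := by
            have : ¬ (f i a = f i (fun j => !(a j))) := fun h => hi1 (mem_filter.2 ⟨hiS, h⟩)
            cases h3 : f i a <;> cases h4 : f i (fun j => !(a j)) <;> simp_all
          rw [hi2]
          cases x i <;> cases y i <;> cases f i a <;> simp [hi1]
      · have hi1 : i ∉ S1 := fun h => hiS (hS1S h)
        have hxy : x i = y i := hoff x hx y hy i hiS
        have e : ∀ p : Bool, (fun j => if a j = true then p else p) = fun _ : Fin k => p := by
          intro p
          funext j
          split_ifs <;> rfl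
        simp only [hi1, false_and, if_false, hxy]
        rw [e, hfix y hy i, e, hfix y hy i]
    -- the extreme word
    set z : ι → Bool := fun i => if ∃ c ∈ C, c i = f i a then f i a else !(f i a) with hz
    have hfold : ∀ c ∈ C, (fun i => if i ∈ S1 then z i else c i) ∈ C := by
      intro c hc
      have key : ∀ T ⊆ C, (fun i => if i ∈ S1 ∧ (∃ c' ∈ T, c' i = f i a) then f i a else c i) ∈ C := by
        intro T
        induction T using Finset.induction_on with
        | empty =>
          intro _
          simpa using hc
        | insert c' T hc' ihT =>
          intro hT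
          have h2 := ihT ((subset_insert _ _).trans hT)
          have h3 := hm _ h2 c' (hT (mem_insert_self _ _))
          convert h3 using 1
          funext i
          by_cases hi : i ∈ S1
          · by_cases hex : ∃ c' ∈ T, c' i = f i a
            · have hex' : ∃ c'' ∈ insert c' T, c'' i = f i a := by
                obtain ⟨w, hw, hw'⟩ := hex
                exact ⟨w, mem_insert_of_mem hw, hw'⟩
              simp only [hi, hex, hex', and_self, if_true, true_and]
              simp
            · simp only [hi, hex, true_and, and_false, if_false]
              by_cases hc'i : c' i = f i a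
              · have hex' : ∃ c'' ∈ insert c' T, c'' i = f i a :=
                  ⟨c', mem_insert_self _ _, hc'i⟩
                simp only [hex', if_true, hc'i]
                by_cases hci : c i = f i a <;> simp [hci]
              · have hex' : ¬ ∃ c'' ∈ insert c' T, c'' i = f i a := by
                  rintro ⟨w, hw, hw'⟩
                  rcases mem_insert.1 hw with rfl | hw
                  · exact hc'i hw'
                  · exact hex ⟨w, hw, hw'⟩
                simp only [hex', if_false]
                by_cases hci : c i = c' i
                · simp [hci]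
                · rw [if_pos hci]
                  cases h3 : c i <;> cases h4 : c' i <;> cases h5 : f i a <;> simp_all
          · simp [hi]
      have h2 := key C subset_rfl
      convert h2 using 1
      funext i
      by_cases hi : i ∈ S1
      · by_cases hex : ∃ c' ∈ C, c' i = f i a
        · simp only [hz, hi, hex, and_self, if_true]
        · simp only [hz, hi, hex, and_false, if_true, if_false]
          have hci : c i ≠ f i a := fun h => hex ⟨c, hc, h⟩
          cases h3 : c i <;> cases h5 : f i a <;> simp_all
      · simp [hi]
    set φ : (ι → Bool) → (ι → Bool) := fun c i => if i ∈ S1 then z i else c i with hφ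
    have hφφ : ∀ c, φ (φ c) = φ c := by
      intro c
      funext i
      simp only [hφ]
      split_ifs <;> rfl
    -- the fibres
    have hfib : ∀ y ∈ C.image φ, (C.filter fun x => φ x = y).card ≤ B f d S1 := by
      intro y _
      have hoff1 : AgreeOff S1 (C.filter fun x => φ x = y) := by
        intro x hx x' hx' i hi
        have h2 := (mem_filter.1 hx).2
        have h3 := (mem_filter.1 hx').2
        have h4 := congrFun (h2.trans h3.symm) i
        simpa [hφ, hi] using h4
      have hC1 : IsCode d (C.filter fun x => φ x = y) := fun x hx x' hx' =>
        hC x (mem_filter.1 hx).1 x' (mem_filter.1 hx').1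
      refine (?_ : _ ≤ 2 ^ (S1.card / d)).trans (le_B_Q f d ?_)
      · refine card_le_two_pow (k := 2) hd (s := fun i => f i a) (g := fun v => v 0 && v 1)
          hoff1 hC1 ?_ ?_
        · intro v hv
          refine ⟨_, mem_filter.2 ⟨hm (v 0) (mem_filter.1 (hv 0)).1 (v 1) (mem_filter.1 (hv 1)).1,
            ?_⟩, ?_⟩
          · rw [← (mem_filter.1 (hv 0)).2]
            funext i
            simp only [hφ]
            by_cases hi : i ∈ S1 <;> simp [hi]
          · intro i hi
            simp only [hi, true_and]
            cases v 0 i <;> cases v 1 i <;> cases f i a <;> simp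
        · intro haff
          have := haff (fun j => decide (j = 0)) (fun j => decide (j = 1)) (fun _ => false)
          simp at this
      · intro i hi
        exact not_isAffine_of_not_selfdual (hid i (hS1S hi)) (mem_filter.1 hi).2
    -- the image
    have hsub : ∀ y ∈ C.image φ, y ∈ C ∧ φ y = y := by
      intro y hy
      obtain ⟨x, hx, rfl⟩ := mem_image.1 hy
      exact ⟨hfold x hx, hφφ x⟩
    have hlt : (S \ S1).card < m := by
      rw [← hSm]
      exact card_lt_card (Finset.ssubset_iff_subset_ne.2 ⟨sdiff_subset, fun h => by
        have h2 : i₀ ∈ S \ S1 := by rw [h]; exact hi₀S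
        exact (mem_sdiff.1 h2).2 hi₀1⟩)
    have himg : (C.image φ).card ≤ B f d (S \ S1) := by
      refine ih _ hlt (S \ S1) _ rfl ?_ ?_ ?_ ?_ ?_
      · intro x hx y hy i hi
        obtain ⟨x', hx', rfl⟩ := mem_image.1 hx
        obtain ⟨y', hy', rfl⟩ := mem_image.1 hy
        simp only [hφ]
        by_cases hi1 : i ∈ S1
        · simp [hi1]
        · have hiS : i ∉ S := fun h => hi (mem_sdiff.2 ⟨h, hi1⟩)
          simp only [hi1, if_false]
          exact hoff x' hx' y' hy' i hiS
      · intro x hx i
        exact hfix x (hsub x hx).1 i
      · intro i hi b
        exact hid i (mem_sdiff.1 hi).1 b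
      · intro x hx y hy
        exact hC x (hsub x hx).1 y (hsub y hy).1
      · intro c hc
        have h2 := hP c fun j => (hsub _ (hc j)).1
        refine mem_image.2 ⟨_, h2, ?_⟩
        funext i
        simp only [hφ]
        by_cases hi1 : i ∈ S1
        · simp only [hi1, if_true]
          have h3 : ∀ j, c j i = z i := by
            intro j
            have := congrFun (hsub _ (hc j)).2 i
            simp only [hφ, hi1, if_true] at this
            exact this.symm
          simp only [h3]
          exact (hid i (hS1S hi1) (z i)).symm
        · simp [hi1]
    calc C.card ≤ B f d S1 * (C.image φ).card := card_le_mul_card_image C _ hfib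
      _ ≤ B f d S1 * B f d (S \ S1) := Nat.mul_le_mul_left _ himg
      _ ≤ B f d (S1 ∪ (S \ S1)) := B_mul f d disjoint_sdiff
      _ = B f d S := by rw [union_sdiff_of_subset hS1S]
  · push Not at h1
    by_cases h2 : ∃ (a : Fin k → Bool), ∃ i ∈ S, ∃ i' ∈ S, f i a = true ∧ f i' a = false
    · -- a product
      obtain ⟨a, i₁, hi₁, i₂, hi₂, ha1, ha2⟩ := h2
      set X := S.filter fun i => f i a = true with hX
      set Y := S.filter fun i => ¬ (f i a = true) with hY
      have hXY : X ∪ Y = S := filter_union_filter_not_eq _ _
      have hdisj : Disjoint X Y := disjoint_filter_filter_not _ _ _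
      have hb : ∀ x ∈ C, ∀ y ∈ C, (fun i => if i ∈ X then x i else y i) ∈ C := by
        intro x hx y hy
        have := hP (fun j => if a j then x else y) (by
          intro j
          by_cases hj : a j = true
          · simpa [hj] using hx
          · simpa [hj] using hy)
        convert this using 1
        funext i
        have e1 : (fun j => (if a j = true then x else y) i) =
            (fun j => if a j = true then x i else y i) := by
          funext j
          by_cases hj : a j = true <;> simp [hj]
        rw [e1]
        by_cases hiS : i ∈ S
        · cases hx' : x i <;> cases hy' : y i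
          · have : (fun j => if a j = true then false else false) = fun _ : Fin k => false := by
              funext j; simp
            rw [this, hid i hiS]
            simp
          · have : (fun j => if a j = true then false else true) = fun j : Fin k => !(a j) := by
              funext j; cases a j <;> rfl
            rw [this]
            have h3 := h1 a i hiS
            by_cases hia : f i a = true
            · have : i ∈ X := mem_filter.2 ⟨hiS, hia⟩
              rw [if_pos this]
              cases h4 : f i (fun j => !(a j))
              · rfl
              · exact absurd (hia.trans h4.symm) h3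
            · have : i ∉ X := fun h => hia (mem_filter.1 h).2
              rw [if_neg this]
              cases h4 : f i (fun j => !(a j))
              · exact absurd ((Bool.not_eq_true _).mp hia |>.trans h4.symm) h3
              · rfl
          · have : (fun j => if a j = true then true else false) = a := by
              funext j; cases a j <;> rfl
            rw [this]
            by_cases hia : f i a = true
            · have : i ∈ X := mem_filter.2 ⟨hiS, hia⟩
              rw [if_pos this, hia]
            · have : i ∉ X := fun h => hia (mem_filter.1 h).2
              rw [if_neg this, (Bool.not_eq_true _).mp hia]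
          · have : (fun j => if a j = true then true else true) = fun _ : Fin k => true := by
              funext j; simp
            rw [this, hid i hiS]
            simp
        · have hxy : x i = y i := hoff x hx y hy i hiS
          simp only [hxy, ite_self]
          exact (hfix y hy i).symm
      -- the two factors
      have hfac : ∀ Z ⊆ S, Z.card < S.card → (C.filter fun x => ∀ i, i ∉ Z → x i = c₀ i).card ≤
          B f d Z := by
        intro Z hZS hZ
        refine ih _ (by omega) Z _ rfl ?_ ?_ ?_ ?_ ?_
        · intro x hx y hy i hi
          rw [(mem_filter.1 hx).2 i hi, (mem_filter.1 hy).2 i hi]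
        · intro x hx i
          exact hfix x (mem_filter.1 hx).1 i
        · intro i hi b
          exact hid i (hZS hi) b
        · intro x hx y hy
          exact hC x (mem_filter.1 hx).1 y (mem_filter.1 hy).1
        · intro c hc
          refine mem_filter.2 ⟨hP c fun j => (mem_filter.1 (hc j)).1, ?_⟩
          intro i hi
          have h3 : ∀ j, c j i = c₀ i := fun j => (mem_filter.1 (hc j)).2 i hi
          simp only [h3]
          exact hfix c₀ hc₀ i
      have hXlt : X.card < S.card := card_lt_card (Finset.ssubset_iff_subset_ne.2
        ⟨filter_subset _ _, fun h => by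
          have h3 : i₂ ∈ X := by rw [h]; exact hi₂
          rw [(mem_filter.1 h3).2] at ha2
          exact absurd ha2 (by simp)⟩)
      have hYlt : Y.card < S.card := card_lt_card (Finset.ssubset_iff_subset_ne.2
        ⟨filter_subset _ _, fun h => by
          have h3 : i₁ ∈ Y := by rw [h]; exact hi₁
          exact (mem_filter.1 h3).2 ha1⟩)
      have hinj : C.card ≤ ((C.filter fun x => ∀ i, i ∉ X → x i = c₀ i) ×ˢ
          (C.filter fun x => ∀ i, i ∉ Y → x i = c₀ i)).card := by
        refine card_le_card_of_injOn (fun c => (fun i => if i ∈ X then c i else c₀ i,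
          fun i => if i ∈ X then c₀ i else c i)) ?_ ?_
        · intro c hc
          rw [mem_coe] at hc
          simp only [coe_product, Set.mem_prod, mem_coe, mem_filter]
          refine ⟨⟨hb c hc c₀ hc₀, ?_⟩, hb c₀ hc₀ c hc, ?_⟩
          · intro i hi
            simp [hi]
          · intro i hi
            by_cases hiX : i ∈ X
            · simp [hiX]
            · have hiS : i ∉ S := by
                rw [← hXY, mem_union]
                tauto
              simp only [hiX, if_false]
              exact hoff c hc c₀ hc₀ i hiS
        · intro c hc c' hc' heq
          simp only [Prod.mk.injEq] at heq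
          funext i
          have h3 := congrFun heq.1 i
          have h4 := congrFun heq.2 i
          by_cases hiX : i ∈ X
          · simpa [hiX] using h3
          · simpa [hiX] using h4
      rw [card_product] at hinj
      calc C.card ≤ _ := hinj
        _ ≤ B f d X * B f d Y := Nat.mul_le_mul (hfac X (filter_subset _ _) hXlt)
          (hfac Y (filter_subset _ _) hYlt)
        _ ≤ B f d (X ∪ Y) := B_mul f d hdisj
        _ = B f d S := by rw [hXY]
    · -- the same operation everywhere
      push Not at h2
      rcases S.eq_empty_or_nonempty with rfl | ⟨i₀, hi₀⟩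
      · exact (card_le_A hoff hC).trans (le_B_E f d (by simp))
      have hsame : ∀ i ∈ S, f i = f i₀ := by
        intro i hi
        funext a
        cases h3 : f i a <;> cases h4 : f i₀ a
        · rfl
        · exact absurd h3 (h2 a i₀ hi₀ i hi h4)
        · exact absurd h4 (h2 a i hi i₀ hi₀ h3)
        · rfl
      have hcl : ClosedOn S (fun _ => false) (f i₀) C := by
        intro c hc
        refine ⟨_, hP c hc, ?_⟩
        intro i hi
        simp [hsame i hi]
      by_cases haff : IsAffine (f i₀)
      · by_cases hone : AtMostOne (f i₀)
        · exact (card_le_A hoff hC).trans (le_B_E f d (by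
            intro i hi
            rw [hsame i hi]
            exact hone))
        · exact (card_le_ALin hoff hC hcl haff (hid i₀ hi₀ false) hone).trans (le_B_P f d (by
            intro i hi
            rw [hsame i hi]
            exact haff) (by
            intro i hi
            rw [hsame i hi]
            exact hone))
      · exact (card_le_two_pow hd hoff hC hcl haff).trans (le_B_Q f d (by
          intro i hi
          rw [hsame i hi]
          exact haff))

end

end Helper90K9.CP
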