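import Pool.Agent.Helper90K9.CP.Const

/-!
# Codes closed under coordinatewise operations: the general bound
-/

set_option autoImplicit false
set_option linter.unusedSectionVars false

namespace Helper90K9.CP

open Finset

section dbl

variable {k : ℕ}

/-- `g (g (X₁), …, g (X_k))` -/
def dbl (g : (Fin k → Bool) → Bool) : (Fin (k * k) → Bool) → Bool :=
  fun x => g (fun j => g (fun l => x (finProdFinEquiv (j, l))))

theorem dbl_affine {g : (Fin k → Bool) → Bool} (h : IsAffine g) : IsAffine (dbl g) := by
  intro x y z
  simp only [dbl]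
  rw [← h]
  congr 1
  funext j
  rw [← h]

/-- the matrix whose rows are `w` or `u` -/
def mat (u w x : Fin k → Bool) : Fin (k * k) → Bool :=
  fun p => if x (finProdFinEquiv.symm p).1 then w (finProdFinEquiv.symm p).2
    else u (finProdFinEquiv.symm p).2

theorem dbl_mat {g : (Fin k → Bool) → Bool} {u w : Fin k → Bool} (hu : g u = false)
    (hw : g w = true) (x : Fin k → Bool) : dbl g (mat u w x) = g x := by
  simp only [dbl, mat, Equiv.symm_apply_apply]
  congr 1
  funext j
  cases hx : x j
  · simp [hu]
  · simp [hw]

theorem nonconst {g : (Fin k → Bool) → Bool} (h : ∃ x y, g x ≠ g y) :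
    ∃ u w, g u = false ∧ g w = true := by
  obtain ⟨x, y, hxy⟩ := h
  cases hx : g x <;> cases hy : g y
  · exact absurd (hx.trans hy.symm) hxy
  · exact ⟨x, y, hx, hy⟩
  · exact ⟨y, x, hy, hx⟩
  · exact absurd (hx.trans hy.symm) hxy

theorem mux (a b c p q : Bool) : (if ((a ^^ b) ^^ c) = true then p else q) =
    (((if a = true then p else q) ^^ (if b = true then p else q)) ^^
      (if c = true then p else q)) := by
  cases a <;> cases b <;> cases c <;> cases p <;> cases q <;> rfl

theorem affine_of_dbl {g : (Fin k → Bool) → Bool} (h : IsAffine (dbl g)) : IsAffine g := by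
  by_cases hc : ∃ x y, g x ≠ g y
  · obtain ⟨u, w, hu, hw⟩ := nonconst hc
    intro x y z
    rw [← dbl_mat hu hw, ← dbl_mat hu hw x, ← dbl_mat hu hw y, ← dbl_mat hu hw z, ← h]
    congr 1
    funext p
    simp only [mat]
    exact mux _ _ _ _ _
  · push Not at hc
    intro x y z
    rw [hc _ x, hc y x, hc z x]
    cases g x <;> rfl

theorem dbl_isAffine (g : (Fin k → Bool) → Bool) : IsAffine (dbl g) ↔ IsAffine g :=
  ⟨affine_of_dbl, dbl_affine⟩

theorem dependsOn_dbl {g : (Fin k → Bool) → Bool} {j l : Fin k}
    (h : DependsOn (dbl g) (finProdFinEquiv (j, l))) : DependsOn g j ∧ DependsOn g l := by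
  obtain ⟨x, hx⟩ := h
  set x' := Function.update x (finProdFinEquiv (j, l)) (!x (finProdFinEquiv (j, l))) with hx'
  have hrow : ∀ j' ≠ j, (fun l' => x' (finProdFinEquiv (j', l'))) =
      fun l' => x (finProdFinEquiv (j', l')) := by
    intro j' hj'
    funext l'
    rw [hx', Function.update_of_ne]
    intro h
    have := finProdFinEquiv.injective h
    simp only [Prod.mk.injEq] at this
    exact hj' this.1
  have hrow' : (fun l' => x' (finProdFinEquiv (j, l'))) =
      Function.update (fun l' => x (finProdFinEquiv (j, l'))) l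
        (!x (finProdFinEquiv (j, l))) := by
    funext l'
    by_cases hl : l' = l
    · subst hl
      rw [hx', Function.update_self, Function.update_self]
    · rw [hx', Function.update_of_ne, Function.update_of_ne hl]
      intro h
      have := finProdFinEquiv.injective h
      simp only [Prod.mk.injEq] at this
      exact hl this.2
  have hne : g (fun l' => x' (finProdFinEquiv (j, l'))) ≠
      g (fun l' => x (finProdFinEquiv (j, l'))) := by
    intro heq
    apply hx
    simp only [dbl]
    congr 1
    funext j'
    by_cases hj : j' = j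
    · subst hj
      exact heq
    · rw [hrow j' hj]
  refine ⟨⟨fun j' => g (fun l' => x (finProdFinEquiv (j', l'))), ?_⟩,
    ⟨fun l' => x (finProdFinEquiv (j, l')), ?_⟩⟩
  · intro h
    apply hx
    have e : (fun j' => g (fun l' => x' (finProdFinEquiv (j', l')))) =
        Function.update (fun j' => g (fun l' => x (finProdFinEquiv (j', l')))) j
          (!(g (fun l' => x (finProdFinEquiv (j, l'))))) := by
      funext j'
      by_cases hj : j' = j
      · subst hj
        rw [Function.update_self]
        cases h1 : g (fun l' => x' (finProdFinEquiv (j', l'))) <;>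
          cases h2 : g (fun l' => x (finProdFinEquiv (j', l'))) <;> simp_all
      · rw [Function.update_of_ne hj, hrow j' hj]
    change g (fun j' => g (fun l' => x' (finProdFinEquiv (j', l')))) = _
    rw [e]
    exact h
  · rw [← hrow']
    exact hne

theorem dbl_atMostOne (g : (Fin k → Bool) → Bool) : AtMostOne (dbl g) ↔ AtMostOne g := by
  constructor
  · intro h i j hi hj
    have hc : ∃ x y, g x ≠ g y := by
      obtain ⟨x, hx⟩ := hi
      exact ⟨_, _, hx⟩
    obtain ⟨u, w, hu, hw⟩ := nonconst hc
    have key : ∀ i, DependsOn g i → ∃ l, DependsOn (dbl g) (finProdFinEquiv (i, l)) := by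
      intro i hi
      by_contra hcon
      push Not at hcon
      obtain ⟨x, hx⟩ := hi
      apply hx
      rw [← dbl_mat hu hw, ← dbl_mat hu hw x]
      refine eq_of_agree _ _ _ ?_
      intro p hp
      obtain ⟨⟨i', l⟩, rfl⟩ := finProdFinEquiv.surjective p
      have hii : i' ≠ i := by
        rintro rfl
        exact hcon l hp
      simp only [mat, Equiv.symm_apply_apply]
      rw [Function.update_of_ne hii]
    obtain ⟨l, hl⟩ := key i hi
    obtain ⟨l', hl'⟩ := key j hj
    have := finProdFinEquiv.injective (h _ _ hl hl')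
    simp only [Prod.mk.injEq] at this
    exact this.1
  · intro h p q hp hq
    obtain ⟨⟨i, l⟩, rfl⟩ := finProdFinEquiv.surjective p
    obtain ⟨⟨j, l'⟩, rfl⟩ := finProdFinEquiv.surjective q
    obtain ⟨h1, h2⟩ := dependsOn_dbl hp
    obtain ⟨h3, h4⟩ := dependsOn_dbl hq
    rw [h i j h1 h3, h l l' h2 h4]

end dbl

section

variable {ι : Type} [Fintype ι] [DecidableEq ι] {k : ℕ}

theorem B_dbl (f : ι → (Fin k → Bool) → Bool) (d : ℕ) (S : Finset ι) :
    B (fun i => dbl (f i)) d S = B f d S := by
  unfold B
  simp only [dbl_isAffine, dbl_atMostOne]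

theorem main_bound {d : ℕ} (hd : 1 ≤ d) (f : ι → (Fin k → Bool) → Bool)
    (C : Finset (ι → Bool)) (hC : IsCode d C) (hP : Pres f C) : C.card ≤ B f d univ := by
  classical
  set t : ι → (Fin (k * k) → Bool) → Bool := fun i => dbl (f i) with ht
  have htP : Pres t C := by
    intro c hc
    have h1 := hP (fun j i => f i (fun l => c (finProdFinEquiv (j, l)) i))
      fun j => hP _ fun l => hc _
    exact h1
  set K : Finset ι := univ.filter fun i => f i (fun _ => false) = f i (fun _ => true) with hK
  have htval : ∀ i b, t i (fun _ => b) = f i (fun _ => f i (fun _ => b)) := fun i b => rfl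
  have hKval : ∀ i ∈ K, ∀ b, t i (fun _ => b) = f i (fun _ => false) := by
    intro i hi b
    have h1 := (mem_filter.1 hi).2
    rw [htval]
    have h2 : ∀ b, f i (fun _ => b) = f i (fun _ => false) := by
      intro b
      cases b
      · rfl
      · exact h1.symm
    rw [h2]
  have hKc : ∀ i, i ∉ K → ∀ b, t i (fun _ => b) = b := by
    intro i hi b
    have h1 : ¬ (f i (fun _ => false) = f i (fun _ => true)) := fun h =>
      hi (mem_filter.2 ⟨mem_univ _, h⟩)
    rw [htval]
    cases h2 : f i (fun _ => false) <;> cases h3 : f i (fun _ => true)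
    · exact absurd (h2.trans h3.symm) h1
    · cases b
      · rw [h2, h2]
      · rw [h3, h3]
    · cases b
      · rw [h2, h3]
      · rw [h3, h2]
    · exact absurd (h2.trans h3.symm) h1
  set φ : (ι → Bool) → (ι → Bool) := fun c i => t i (fun _ => c i) with hφ
  have hφC : ∀ c ∈ C, φ c ∈ C := fun c hc => htP (fun _ => c) fun _ => hc
  have hφoff : ∀ c i, i ∉ K → φ c i = c i := fun c i hi => hKc i hi _
  have hφon : ∀ c i, i ∈ K → φ c i = f i (fun _ => false) := fun c i hi => hKval i hi _
  have hφφ : ∀ c, φ (φ c) = φ c := by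
    intro c
    funext i
    by_cases hi : i ∈ K
    · rw [hφon _ i hi, hφon _ i hi]
    · rw [hφoff _ i hi]
  have hfib : ∀ y ∈ C.image φ, (C.filter fun x => φ x = y).card ≤ B f d K := by
    intro y hy
    obtain ⟨c, hc, rfl⟩ := mem_image.1 hy
    rw [← B_dbl]
    refine const_bound hd t K _ (φ c) (mem_filter.2 ⟨hφC c hc, hφφ c⟩) ?_ ?_ ?_ ?_ ?_
    · intro x hx i hi
      rw [← hφoff x i hi, (mem_filter.1 hx).2]
    · intro i hi
      exact hKc i hi _
    · intro i hi b
      rw [hKval i hi, hφon c i hi]
    · exact fun x hx x' hx' => hC x (mem_filter.1 hx).1 x' (mem_filter.1 hx').1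
    · intro a ha
      have hw : (fun i => t i (fun j => a j i)) ∈ C := htP a fun j => (mem_filter.1 (ha j)).1
      generalize hwdef : (fun i => t i (fun j => a j i)) = w at hw ⊢
      refine mem_filter.2 ⟨hw, ?_⟩
      funext i
      by_cases hi : i ∈ K
      · exact (hφon _ i hi).trans (hφon _ i hi).symm
      · refine (hφoff _ i hi).trans ?_
        have h1 : ∀ j, a j i = φ c i := by
          intro j
          rw [← hφoff (a j) i hi, (mem_filter.1 (ha j)).2]
        have h2 : (fun j => a j i) = fun _ => φ c i := funext h1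
        rw [← hwdef]
        change t i (fun j => a j i) = _
        rw [h2]
        exact hKc i hi _
  have himg : (C.image φ).card ≤ B f d Kᶜ := by
    rw [← B_dbl]
    have hsub : ∀ y ∈ C.image φ, y ∈ C ∧ φ y = y := by
      intro y hy
      obtain ⟨x, hx, rfl⟩ := mem_image.1 hy
      exact ⟨hφC x hx, hφφ x⟩
    refine idem_bound hd t _ Kᶜ _ rfl ?_ ?_ ?_ ?_ ?_
    · intro x hx y hy i hi
      have hi' : i ∈ K := by simpa using hi
      rw [← (hsub x hx).2, ← (hsub y hy).2, hφon _ i hi', hφon _ i hi']
    · intro x hx i
      exact congrFun (hsub x hx).2 i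
    · intro i hi b
      exact hKc i (by simpa using hi) b
    · exact fun x hx y hy => hC x (hsub x hx).1 y (hsub y hy).1
    · intro a ha
      have hw : (fun i => t i (fun j => a j i)) ∈ C := htP a fun j => (hsub _ (ha j)).1
      generalize hwdef : (fun i => t i (fun j => a j i)) = w at hw ⊢
      refine mem_image.2 ⟨w, hw, ?_⟩
      funext i
      by_cases hi : i ∈ K
      · refine (hφon _ i hi).trans ?_
        have h1 : ∀ j, a j i = f i (fun _ => false) := by
          intro j
          rw [← (hsub _ (ha j)).2, hφon _ i hi]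
        have h2 : (fun j => a j i) = fun _ => f i (fun _ => false) := funext h1
        rw [← hwdef]
        change _ = t i (fun j => a j i)
        rw [h2]
        exact (hKval i hi _).symm
      · exact hφoff _ i hi
  calc C.card ≤ B f d K * (C.image φ).card := card_le_mul_card_image C _ hfib
    _ ≤ B f d K * B f d Kᶜ := Nat.mul_le_mul_left _ himg
    _ ≤ B f d (K ∪ Kᶜ) := B_mul f d disjoint_compl_right
    _ = B f d univ := by rw [union_compl]

end

end Helper90K9.CP
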