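import Pool.Agent.Helper90K9.CP.Main
import Pool.Agent.Helper90K9.AB.Near

/-!
# Codes closed up to errors under coordinatewise operations that are not affine
-/

set_option autoImplicit false

open Finset

namespace Helper90K9.CP

theorem near_bool (k : ℕ) {δ : ℝ} (hδ : 0 < δ) :
    ∃ θ : ℝ, 0 < θ ∧ ∀ (n : ℕ) (f : Fin n → (Fin k → Bool) → Bool) (C : Finset (Fin n → Bool)),
      (((univ.filter fun i => IsAffine (f i)).card : ℕ) : ℝ) ≤ θ * n →
      (∀ c : Fin k → Fin n → Bool, (∀ j, c j ∈ C) → ∃ y ∈ C,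
        (hammingDist (fun i => f i (fun j => c j i)) y : ℝ) ≤ θ * n) →
      (∀ x ∈ C, ∀ y ∈ C, x ≠ y → δ * n ≤ hammingDist x y) → (C.card : ℝ) ≤ 2 ^ (1 / δ) := by
  classical
  have hexact : ∀ (ι : Type) [Fintype ι] [DecidableEq ι]
      (φ : ι → {g : (Fin k → Bool) → Bool // ¬ IsAffine g}) (d : ℕ), 1 ≤ d →
      ∀ C : Finset (ι → Bool),
      (∀ (_ : Unit) (x : Fin k → ι → Bool), (∀ a, x a ∈ C) →
        (fun i => (φ i).1 fun a => x a i) ∈ C) →
      (∀ x ∈ C, ∀ y ∈ C, x ≠ y → d ≤ (univ.filter fun i => x i ≠ y i).card) →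
      (C.card : ℝ) ≤ (Fintype.card Bool : ℝ) ^ ((Fintype.card ι : ℝ) / d) := by
    intro ι _ _ φ d hd C hC hCd
    have h1 := main_bound hd (fun i => (φ i).1) C
      (fun x hx y hy hxy => by simpa [hammingDist] using hCd x hx y hy hxy)
      (fun c hc => hC () c hc)
    have h2 : B (fun i => (φ i).1) d univ ≤ 2 ^ (Fintype.card ι / d) := by
      unfold B
      have e1 : (univ.filter fun i => AtMostOne (φ i).1) = ∅ :=
        filter_eq_empty_iff.2 fun i _ hi => (φ i).2 (AtMostOne.isAffine hi)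
      have e2 : (univ.filter fun i => IsAffine (φ i).1 ∧ ¬ AtMostOne (φ i).1) = ∅ :=
        filter_eq_empty_iff.2 fun i _ hi => (φ i).2 hi.1
      have e3 : (univ.filter fun i => ¬ IsAffine (φ i).1) = univ :=
        filter_eq_self.2 fun i _ => (φ i).2
      rw [e1, e2, e3, card_empty, card_univ]
      have h3 : A 0 d ≤ 1 := (A_le_two_pow 0 d).trans (by norm_num)
      have h4 : ALin 0 d ≤ 1 := (ALin_le_A 0 d).trans h3
      calc A 0 d * ALin 0 d * 2 ^ (Fintype.card ι / d) ≤ 1 * 1 * 2 ^ (Fintype.card ι / d) :=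
            Nat.mul_le_mul_right _ (Nat.mul_le_mul h3 h4)
        _ = _ := by ring
    have h3 : (C.card : ℝ) ≤ (2 : ℝ) ^ (Fintype.card ι / d) := by exact_mod_cast h1.trans h2
    rw [Fintype.card_bool]
    push_cast
    refine h3.trans ?_
    rw [← Real.rpow_natCast]
    exact Real.rpow_le_rpow_of_exponent_le (by norm_num) Nat.cast_div_le
  obtain ⟨θ, hθ, h⟩ := AB.near_except (A := Bool) (J := Unit) (k := fun _ => k)
    (Φ := {g : (Fin k → Bool) → Bool // ¬ IsAffine g}) (fun φ _ => φ.1) hexact hδ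
  refine ⟨θ, hθ, fun n f C hS hC hCd => ?_⟩
  have h1 := h n (fun i _ => f i) (univ.filter fun i => IsAffine (f i)) C hS ?_ ?_ ?_
  · simpa using h1
  · intro i hi
    have h2 : ¬ IsAffine (f i) := fun h3 => hi (mem_filter.2 ⟨mem_univ _, h3⟩)
    exact ⟨⟨f i, h2⟩, rfl⟩
  · intro _ x hx
    obtain ⟨y, hy, hye⟩ := hC x hx
    exact ⟨y, hy, by simpa [hammingDist] using hye⟩
  · intro x hx y hy hxy
    simpa [hammingDist] using hCd x hx y hy hxy

end Helper90K9.CP
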