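import Pool.Agent.Helper90K9.CP.Main

/-!
# The general bound is sharp
-/

set_option autoImplicit false
set_option linter.unusedSectionVars false

namespace Helper90K9.CP

open Finset

section

variable {ι : Type} [Fintype ι] [DecidableEq ι]

theorem hammingDist_res_le (S : Finset ι) (x y : ι → Bool) :
    hammingDist (res S (fun _ => false) x) (res S (fun _ => false) y) ≤ hammingDist x y := by
  unfold hammingDist
  rw [← card_map (emb S)]
  refine card_le_card ?_
  intro i hi
  obtain ⟨t, ht, rfl⟩ := mem_map.1 hi
  refine mem_filter.2 ⟨mem_univ _, ?_⟩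
  intro h
  exact (mem_filter.1 ht).2 (by simp [res, h])

/-- the word which is `u` on the coordinates in `S` -/
noncomputable def ext (S : Finset ι) (u : Fin S.card → Bool) : ι → Bool :=
  fun i => if h : ∃ t, emb S t = i then u h.choose else false

theorem ext_emb (S : Finset ι) (u : Fin S.card → Bool) (t : Fin S.card) :
    ext S u (emb S t) = u t := by
  have h : ∃ t', emb S t' = emb S t := ⟨t, rfl⟩
  unfold ext
  rw [dif_pos h]
  congr 1
  exact (emb S).injective h.choose_spec

/-- sums of codes on disjoint sets of coordinates -/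
theorem exists_sum {d : ℕ} (S : Fin 3 → Finset ι) (hdisj : ∀ a b, a ≠ b → Disjoint (S a) (S b))
    (hcov : ∀ i, ∃ a, i ∈ S a) (D : (a : Fin 3) → Finset (Fin (S a).card → Bool))
    (hD : ∀ a, IsCode d (D a)) : ∃ C : Finset (ι → Bool), IsCode d C ∧
      C.card = (D 0).card * (D 1).card * (D 2).card ∧
      ∀ x, x ∈ C ↔ ∀ a, res (S a) (fun _ => false) x ∈ D a := by
  classical
  refine ⟨univ.filter fun x => ∀ a, res (S a) (fun _ => false) x ∈ D a, ?_, ?_, ?_⟩
  · intro x hx y hy hxy
    have hx' := (mem_filter.1 hx).2
    have hy' := (mem_filter.1 hy).2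
    obtain ⟨i, hi⟩ := Function.ne_iff.1 hxy
    obtain ⟨a, ha⟩ := hcov i
    have hne : res (S a) (fun _ => false) x ≠ res (S a) (fun _ => false) y := by
      intro h
      obtain ⟨t, rfl⟩ := exists_emb ha
      have := congrFun h t
      simp only [res, Bool.xor_false] at this
      exact hi this
    exact (hD a _ (hx' a) _ (hy' a) hne).trans (hammingDist_res_le _ _ _)
  · rw [← card_product, ← card_product]
    refine (card_bij (fun x _ => ((res (S 0) (fun _ => false) x, res (S 1) (fun _ => false) x),
      res (S 2) (fun _ => false) x)) ?_ ?_ ?_)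
    · intro x hx
      have hx' := (mem_filter.1 hx).2
      simp only [mem_product]
      exact ⟨⟨hx' 0, hx' 1⟩, hx' 2⟩
    · intro x _ y _ hxy
      simp only [Prod.mk.injEq] at hxy
      have h : ∀ a, res (S a) (fun _ => false) x = res (S a) (fun _ => false) y := by
        intro a
        fin_cases a
        · exact hxy.1.1
        · exact hxy.1.2
        · exact hxy.2
      funext i
      obtain ⟨a, ha⟩ := hcov i
      obtain ⟨t, rfl⟩ := exists_emb ha
      have := congrFun (h a) t
      simpa [res] using this
    · rintro ⟨⟨u0, u1⟩, u2⟩ hu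
      simp only [mem_product] at hu
      let u : (a : Fin 3) → (Fin (S a).card → Bool) := fun a =>
        match a with
        | 0 => u0
        | 1 => u1
        | 2 => u2
      let x : ι → Bool := fun i => ext (S (hcov i).choose) (u (hcov i).choose) i
      have hx : ∀ a, res (S a) (fun _ => false) x = u a := by
        intro a
        funext t
        simp only [res, Bool.xor_false]
        have h1 : (hcov (emb (S a) t)).choose = a := by
          by_contra hne
          have h2 := (hcov (emb (S a) t)).choose_spec
          exact disjoint_left.1 (hdisj _ _ hne) h2 (emb_mem _ t)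
        change ext (S (hcov (emb (S a) t)).choose) (u (hcov (emb (S a) t)).choose)
          (emb (S a) t) = u a t
        rw [h1]
        exact ext_emb _ _ _
      refine ⟨x, mem_filter.2 ⟨mem_univ _, ?_⟩, ?_⟩
      · intro a
        rw [hx a]
        fin_cases a
        · exact hu.1.1
        · exact hu.1.2
        · exact hu.2
      · rw [hx 0, hx 1, hx 2]
  · intro x
    simp

/-- majority -/
def maj : (Fin 3 → Bool) → Bool := fun v => (v 0 && v 1) || (v 0 && v 2) || (v 1 && v 2)

/-- sum of three elements -/
def add3 : (Fin 3 → Bool) → Bool := fun v => (v 0 ^^ v 1) ^^ v 2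

theorem maj_not_isAffine : ¬ IsAffine maj := by
  intro h
  have := h (fun j => decide (j = 0)) (fun j => decide (j = 1)) (fun _ => false)
  revert this
  decide

theorem add3_isAffine : IsAffine add3 := by
  intro x y z
  simp only [add3]
  cases x 0 <;> cases x 1 <;> cases x 2 <;> cases y 0 <;> cases y 1 <;> cases y 2 <;>
    cases z 0 <;> cases z 1 <;> cases z 2 <;> rfl

theorem add3_not_atMostOne : ¬ AtMostOne add3 := by
  intro h
  have h0 : DependsOn add3 0 := ⟨fun _ => false, by decide⟩
  have h1 : DependsOn add3 1 := ⟨fun _ => false, by decide⟩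
  exact absurd (h 0 1 h0 h1) (by decide)

theorem proj_atMostOne : AtMostOne (fun v : Fin 3 → Bool => v 0) := by
  have key : ∀ i, DependsOn (fun v : Fin 3 → Bool => v 0) i → i = 0 := by
    intro i hi
    by_contra hne
    obtain ⟨x, hx⟩ := hi
    apply hx
    exact Function.update_of_ne (Ne.symm hne) _ _
  intro i j hi hj
  rw [key i hi, key j hj]

theorem sharp {d : ℕ} (hd : 1 ≤ d) (T : ι → Fin 3) :
    ∃ (f : ι → (Fin 3 → Bool) → Bool) (C : Finset (ι → Bool)),
      (∀ i, (T i = 0 → AtMostOne (f i)) ∧ (T i = 1 → IsAffine (f i) ∧ ¬ AtMostOne (f i)) ∧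
        (T i = 2 → ¬ IsAffine (f i))) ∧ IsCode d C ∧ Pres f C ∧
      C.card = A (univ.filter fun i => T i = 0).card d *
        ALin (univ.filter fun i => T i = 1).card d *
        2 ^ ((univ.filter fun i => T i = 2).card / d) := by
  classical
  set S : Fin 3 → Finset ι := fun a => univ.filter fun i => T i = a with hS
  obtain ⟨D0, h01, h02⟩ := exists_A (S 0).card d
  obtain ⟨D1, h11, h12, h13⟩ := exists_ALin (S 1).card d
  obtain ⟨D2, h21, h22, h23⟩ : ∃ D : Finset (Fin (S 2).card → Bool),
      Pool.Agent.Helper62K9.NP.ClosedUnder maj D ∧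
      IsCode d D ∧ D.card = 2 ^ ((S 2).card / d) := by
    rcases Nat.lt_or_ge (S 2).card d with h | h
    · refine ⟨{fun _ => false}, ?_, (isLinear_zero _ d).2, ?_⟩
      · intro a ha
        rw [mem_singleton]
        funext j
        have h1 : ∀ i, a i j = false := fun i => by
          have := mem_singleton.1 (ha i)
          rw [this]
        simp [maj, h1]
      · rw [Nat.div_eq_of_lt h]
        simp
    · obtain ⟨D, h1, h2, h3⟩ := Pool.Agent.Helper62K9.NP.blocks (S 2).card d hd h
      exact ⟨D, h1 3 maj, h2, h3⟩
  have hmemS : ∀ i a, i ∈ S a ↔ T i = a := by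
    intro i a
    simp [hS]
  let D : (a : Fin 3) → Finset (Fin (S a).card → Bool) := fun a =>
    match a with
    | 0 => D0
    | 1 => D1
    | 2 => D2
  obtain ⟨C, hC1, hC2, hC3⟩ := exists_sum (d := d) S (by
      intro a b hab
      rw [disjoint_left]
      intro i hi hi'
      rw [hmemS] at hi hi'
      exact hab (hi.symm.trans hi')) (fun i => ⟨T i, (hmemS i _).2 rfl⟩) D (by
      intro a
      fin_cases a
      · exact h01
      · exact h12
      · exact h22)
  let g : Fin 3 → (Fin 3 → Bool) → Bool := fun a =>
    match a with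
    | 0 => fun v => v 0
    | 1 => add3
    | 2 => maj
  refine ⟨fun i => g (T i), C, ?_, hC1, ?_, ?_⟩
  · intro i
    refine ⟨fun h => ?_, fun h => ?_, fun h => ?_⟩
    · have e : g (T i) = fun v => v 0 := by rw [h]
      change AtMostOne (g (T i))
      rw [e]
      exact proj_atMostOne
    · have e : g (T i) = add3 := by rw [h]
      change IsAffine (g (T i)) ∧ ¬ AtMostOne (g (T i))
      rw [e]
      exact ⟨add3_isAffine, add3_not_atMostOne⟩
    · have e : g (T i) = maj := by rw [h]
      change ¬ IsAffine (g (T i))
      rw [e]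
      exact maj_not_isAffine
  · intro c hc
    have hc' : ∀ j a, res (S a) (fun _ => false) (c j) ∈ D a := fun j => (hC3 _).1 (hc j)
    rw [hC3]
    have hres : ∀ a, res (S a) (fun _ => false) (fun i => g (T i) (fun j => c j i)) =
        fun t => g a (fun j => res (S a) (fun _ => false) (c j) t) := by
      intro a
      funext t
      have ht : T (emb (S a) t) = a := (hmemS _ _).1 (emb_mem _ t)
      simp only [res, Bool.xor_false, ht]
    intro a
    rw [hres a]
    fin_cases a
    · exact hc' 0 0
    · have h1 := h11.2 _ (h11.2 _ (hc' 0 1) _ (hc' 1 1)) _ (hc' 2 1)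
      exact h1
    · exact h21 _ fun j => hc' j 2
  · rw [hC2]
    change D0.card * D1.card * D2.card = _
    rw [h02, h13, h23]

end

end Helper90K9.CP
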